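import Mathlib

namespace Pool.Agent.Work.MP_84e666_co

/-- Closed-form expressions in two partitions; variables are numbered from the innermost binder. -/
inductive Form : Type
  | num : ℤ → Form
  | var : ℕ → Form
  | multL : ℕ → Form
  | multR : ℕ → Form
  | add : Form → Form → Form
  | mul : Form → Form → Form
  | inv : Form → Form
  | floor : Form → Form
  | sum : Form → Form
  | prod : Form → Form

/-- The value of an expression at two multisets of parts and a list of values of the variables. -/
def Form.val (n : ℕ) (l r : Multiset ℕ) : Form → List ℕ → ℚ
  | .num c, _ => c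
  | .var i, v => v.getD i 0
  | .multL i, v => l.count (v.getD i 0)
  | .multR i, v => r.count (v.getD i 0)
  | .add a b, v => a.val n l r v + b.val n l r v
  | .mul a b, v => a.val n l r v * b.val n l r v
  | .inv a, v => (a.val n l r v)⁻¹
  | .floor a, v => (⌊a.val n l r v⌋ : ℤ)
  | .sum a, v => ∑ x ∈ Finset.range (n + 1), a.val n l r (x :: v)
  | .prod a, v => ∏ x ∈ Finset.range (n + 1), a.val n l r (x :: v)

end Pool.Agent.Work.MP_84e666_co
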