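import Pool.Agent.Work.MP_84e666_co.N.Hard
import Pool.Agent.Lib.Poly.Gauss
import Pool.Agent.Work.MP_84e666_co.U.Defs

section
/-! Functions with binary values, and sums over binary ranges. -/

namespace Pool.Agent.Work.MP_84e666_co.U

open Finset Pool.Agent.Lib.Poly

/-- Polynomial time with the value written in binary. -/
@[fun_prop] def PB {α : Type} [Enc α] (f : α → ℕ) : Prop := PT fun x => Bin.mk (f x)

variable {α β γ : Type} [Enc α] [Enc β] [Enc γ]

namespace PB

theorem of_eq {f g : α → ℕ} (hf : PB f) (h : ∀ a, f a = g a) : PB g :=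
  (funext h : f = g) ▸ hf

@[fun_prop] theorem const (c : ℕ) : PB fun _ : α => c := PT.const _

@[fun_prop] theorem comp {f : β → ℕ} {g : α → β} (hf : PB f) (hg : PT g) :
    PB fun x => f (g x) := PT.comp (f := fun y => Bin.mk (f y)) hf hg

@[fun_prop] theorem ofPT {f : α → ℕ} (hf : PT f) : PB f := hf.toBin

@[fun_prop] theorem val {f : α → Bin} (hf : PT f) : PB fun x => (f x).val := hf

@[fun_prop] theorem add {f g : α → ℕ} (hf : PB f) (hg : PB g) : PB fun x => f x + g x :=
  PT.badd hf hg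

@[fun_prop] theorem sub {f g : α → ℕ} (hf : PB f) (hg : PB g) : PB fun x => f x - g x :=
  PT.bsub hf hg

@[fun_prop] theorem mul {f g : α → ℕ} (hf : PB f) (hg : PB g) : PB fun x => f x * g x :=
  PT.bmul hf hg

@[fun_prop] theorem div {f g : α → ℕ} (hf : PB f) (hg : PB g) : PB fun x => f x / g x :=
  PT.bdiv hf hg

@[fun_prop] theorem mod {f g : α → ℕ} (hf : PB f) (hg : PB g) : PB fun x => f x % g x :=
  PT.bmod hf hg

@[fun_prop] theorem pow {f : α → ℕ} (hf : PB f) (k : ℕ) : PB fun x => f x ^ k := by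
  induction k with
  | zero => exact (const 1).of_eq fun _ => by simp
  | succ k ih => exact (ih.mul hf).of_eq fun _ => by rw [pow_succ]

@[fun_prop] theorem ite {p : α → Prop} [∀ x, Decidable (p x)] {f g : α → ℕ}
    (hp : PT fun x => decide (p x)) (hf : PB f) (hg : PB g) :
    PB fun x => if p x then f x else g x :=
  (PT.ite hp hf hg).of_eq fun x => by
    by_cases h : p x <;> simp [h]

theorem lt {f g : α → ℕ} [∀ x, Decidable (f x < g x)] (hf : PB f) (hg : PB g) :
    PT fun x => decide (f x < g x) :=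
  (PT.blt hf hg).of_eq fun x => by simp [Bin.lt]

theorem eq {f g : α → ℕ} [∀ x, Decidable (f x = g x)] (hf : PB f) (hg : PB g) :
    PT fun x => decide (f x = g x) :=
  (PT.deq (f := fun x => Bin.mk (f x)) (g := fun x => Bin.mk (g x)) hf hg).of_eq fun x => by simp

theorem mk {f : α → ℕ} (hf : PB f) : PT fun x => Bin.mk (f x) := hf

theorem twoPow {f : α → ℕ} (hf : PT f) : PB fun x => 2 ^ f x :=
  (Pack.pt_prod (L := fun x => List.replicate (f x) 2) (by fun_prop)).of_eq fun x => by simp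

theorem app {f : α → ℕ → ℕ} (h : PB fun p : α × Bin => f p.1 p.2.val) {x : β → α} {i : β → ℕ}
    (hx : PT x) (hi : PB i) : PB fun y => f (x y) (i y) :=
  h.comp (g := fun y => (x y, Bin.mk (i y))) (hx.mk hi)

theorem appT {f : α → ℕ → γ} (h : PT fun p : α × Bin => f p.1 p.2.val) {x : β → α} {i : β → ℕ}
    (hx : PT x) (hi : PB i) : PT fun y => f (x y) (i y) :=
  h.comp (g := fun y => (x y, Bin.mk (i y))) (hx.mk hi)

theorem toUnary {f B : α → ℕ} (hf : PB f) (hB : PT B) : PT fun x => min (f x) (B x) := by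
  refine (PT.countP (f := fun x u => decide (u < f x)) (l := fun x => List.range (B x))
    (lt (by fun_prop) (hf.comp PT.fst')) (by fun_prop)).of_eq fun x => ?_
  induction B x with
  | zero => simp
  | succ n ih =>
    rw [List.range_succ, List.countP_append, ih]
    by_cases h : n < f x <;> simp [h] <;> omega

theorem getD {l : α → List β} {i : α → ℕ} {d : α → β} (hl : PT l) (hi : PB i) (hd : PT d) :
    PT fun x => (l x).getD (i x) (d x) :=
  (PT.getD hl (toUnary hi hl.length) hd).of_eq fun x => by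
    rcases le_total (i x) (l x).length with h | h
    · rw [min_eq_left h]
    · rw [min_eq_right h, List.getD_eq_default _ _ h, List.getD_eq_default _ _ le_rfl]

/-- A number of bits. -/
theorem bits {f : α → ℕ} (hf : PB f) : ∃ K : α → ℕ, PT K ∧ ∀ x, f x < 2 ^ K x :=
  ⟨fun x => sz (Bin.mk (f x)), PT.toSz hf, fun x => Bin.lt_two_pow ⟨f x⟩⟩

theorem powMod {b e p : α → ℕ} (hb : PB b) (he : PB e) (hp : PB p) :
    PB fun x => if p x = 0 then 0 else b x ^ e x % p x := by
  obtain ⟨s, hs, hs'⟩ := PT.size hp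
  have key : ∀ x, p x ≠ 0 → ∀ l : List Bool, l.reverse.foldl (fun (acc : Bin) (β : Bool) =>
      Bin.mk (if p x = 0 then 0 else acc.val * acc.val * (if β = true then b x else 1) % p x))
      ⟨1 % p x⟩ = ⟨b x ^ bv l % p x⟩ := by
    intro x hx l
    rw [List.foldl_reverse]
    induction l with
    | nil => simp [bv]
    | cons β l ih =>
      rw [List.foldr_cons, ih, if_neg hx, bv]
      congr 1
      have : b x ^ (β.toNat + 2 * bv l) = b x ^ bv l * b x ^ bv l * if β = true then b x else 1 := by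
        cases β <;> simp <;> ring
      rw [this]
      exact (((Nat.mod_modEq _ _).mul (Nat.mod_modEq _ _)).mul_right _)
  have h1 : PT fun x => (enc (Bin.mk (e x))).reverse.foldl (fun (acc : Bin) (β : Bool) =>
      Bin.mk (if p x = 0 then 0 else acc.val * acc.val * (if β = true then b x else 1) % p x))
      ⟨1 % p x⟩ := by
    refine PT.foldl (f := fun x (acc : Bin) (β : Bool) => Bin.mk
      (if p x = 0 then 0 else acc.val * acc.val * (if β = true then b x else 1) % p x))
      (PB.ite (eq (hp.comp PT.fst') (const 0)) (const 0) (by fun_prop))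
      (PB.mod (const 1) hp) (PT.reverse (PT.toEnc he)) s hs fun a c β => ?_
    have h2 : sz (Bin.mk (if p a = 0 then 0 else
        c.val * c.val * (if β = true then b a else 1) % p a)) ≤ sz (Bin.mk (p a)) := by
      refine Bin.sz_mono ?_
      split_ifs with h <;> first | omega | exact (Nat.mod_lt _ (Nat.pos_of_ne_zero h)).le
    have h3 := hs.mono (Nat.le_add_right (sz a) (sz β))
    have := hs' a
    omega
  refine (PB.ite (eq hp (const 0)) (const 0) (val h1)).of_eq fun x => ?_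
  by_cases h : p x = 0
  · rw [if_pos h, if_pos h]
  · rw [if_neg h, key x h, bv_enc, if_neg h]

end PB

theorem ht_prod (l : List ℚ) : ht l.prod ≤ 2 ^ sz l := by
  induction l with
  | nil => simp [ht]
  | cons a l ih =>
    rw [List.prod_cons, sz_cons]
    refine (ht_mul _ _).trans ((Nat.mul_le_mul (ht_lt a).le ih).trans ?_)
    rw [← pow_add]
    exact Nat.pow_le_pow_right (by omega) (by omega)

theorem pt_qprod {l : α → List ℚ} (hl : PT l) : PT fun x => (l x).prod := by
  obtain ⟨s, hs, hs'⟩ := hl.size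
  refine (PT.foldl_inv (f := fun _ (a b : ℚ) => a * b) (init := fun _ => 1) (by fun_prop)
    (by fun_prop) hl (fun n => 7 * s n + 10) (by fun_prop) fun a i => ?_).of_eq fun a => ?_
  · rw [← List.prod_eq_foldl]
    have h1 := sz_le_of_ht (ht_prod ((l a).take i))
    have h2 := (PT.sz_take_le (l a) i).trans (hs' a)
    omega
  · rw [← List.prod_eq_foldl]

theorem pt_floor {f : α → ℚ} (hf : PT f) : PT fun x => ((⌊f x⌋ : ℤ) : ℚ) := by
  refine PT.of_eq (f := fun x => qmk (idiff ((ipos (f x).num).div (qden (f x)))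
    ((((ineg (f x).num).add (qden (f x))).sub ⟨1⟩).div (qden (f x)))) ⟨1⟩) (by fun_prop) fun x => ?_
  have hd := (f x).pos
  simp only [qmk, idiff, ipos, ineg, qden, Bin.div, Bin.add, Bin.sub, Rat.mkRat_one,
    Rat.floor_def', Int.cast_inj]
  generalize (f x).den = d at *
  cases (f x).num with
  | ofNat m => simp [Nat.div_eq_of_lt (show d - 1 < d by omega)]
  | negSucc m =>
    rw [Int.negSucc_ediv _ (by omega), Int.toNat_negSucc, Int.neg_negSucc, Int.toNat_natCast,
      show m + 1 + d - 1 = m + d by omega, Nat.add_div_right _ hd]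
    simp
    rfl

theorem pt_cons_env {V : α → List ℕ} (hV : ∀ i, PT fun x => (V x).getD i 0) (i : ℕ) :
    PT fun p : α × ℕ => (p.2 :: V p.1).getD i 0 := by
  cases i with
  | zero => exact PT.snd'
  | succ i => exact (hV i).comp PT.fst'

/-- Exact evaluation on explicit inputs. -/
theorem pt_val (e : Form) : ∀ {α : Type} [Enc α] {L R V : α → List ℕ}, PT L → PT R →
    (∀ i, PT fun x => (V x).getD i 0) → PT fun x => e.val (L x).sum (L x) (R x) (V x) := by
  induction e with
  | num c => intro α _ L R V _ _ _; exact PT.const (c : ℚ)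
  | var i => intro α _ L R V _ _ hV; exact (hV i).natCastRat
  | multL i =>
    intro α _ L R V hL _ hV
    refine (PT.natCastRat (f := fun x => (L x).countP fun y => y == (V x).getD i 0)
      (PT.countP (PT.beq PT.snd' ((hV i).comp PT.fst')) hL)).of_eq fun x => ?_
    simp [Form.val, List.count]
  | multR i =>
    intro α _ L R V _ hR hV
    refine (PT.natCastRat (f := fun x => (R x).countP fun y => y == (V x).getD i 0)
      (PT.countP (PT.beq PT.snd' ((hV i).comp PT.fst')) hR)).of_eq fun x => ?_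
    simp [Form.val, List.count]
  | add a b ha hb => intro α _ L R V hL hR hV; exact (ha hL hR hV).qadd (hb hL hR hV)
  | mul a b ha hb => intro α _ L R V hL hR hV; exact (ha hL hR hV).qmul (hb hL hR hV)
  | inv a ha => intro α _ L R V hL hR hV; exact (ha hL hR hV).qinv
  | floor a ha => intro α _ L R V hL hR hV; exact pt_floor (ha hL hR hV)
  | sum a ha =>
    intro α _ L R V hL hR hV
    exact PT.qsum (PT.map (l := fun x => List.range ((L x).sum + 1))
      (f := fun x j => a.val (L x).sum (L x) (R x) (j :: V x))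
      (ha (hL.comp PT.fst') (hR.comp PT.fst') (pt_cons_env hV)) (by fun_prop))
  | prod a ha =>
    intro α _ L R V hL hR hV
    exact pt_qprod (PT.map (l := fun x => List.range ((L x).sum + 1))
      (f := fun x j => a.val (L x).sum (L x) (R x) (j :: V x))
      (ha (hL.comp PT.fst') (hR.comp PT.fst') (pt_cons_env hV)) (by fun_prop))

end Pool.Agent.Work.MP_84e666_co.U
end

section
/-! A closed form for the zero set makes counting easy. -/

namespace Pool.Agent.Work.MP_84e666_co.U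

open Finset Pool.Agent.Lib.Poly Pack

/-- The expression, read after adding one large part on both sides, vanishes exactly where the
Möbius function does. -/
def Zs (e : Form) (N : ℕ) : Prop :=
  ∀ (n : ℕ) (l r : n.Partition), Refines l.parts r.parts → ∀ μ, IsMobius μ →
    (μ l r = 0 ↔ e.val (n + N + 1 + n) ((n + N + 1) ::ₘ l.parts) ((n + N + 1) ::ₘ r.parts) [] = 0)

/-- Sums over binary ranges are easy. -/
def Col : Prop :=
  ∀ (α : Type) [Enc α] (s : α → ℕ) (f : α → ℕ → ℕ), PB s →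
    PB (fun p : α × Bin => f p.1 p.2.val) → PB fun x => ∑ i ∈ range (s x), f x i

variable {α : Type} [Enc α] {e : Form} {N : ℕ}

theorem eq_card (h : Zs e N) {R S : α × List Bool → Bool} (hR : PT R) (hS : PT S) {P : α → ℕ}
    (hP : PT P) : PT fun x =>
      decide ((cardL (P x) fun l => R (x, l)) = cardL (P x) fun l => S (x, l)) := by
  let Q : α × List Bool → Bool := fun z =>
    bif z.2.tail.headD false then z.2.tail.tail.all fun β => !β
    else bif z.2.headD false then R (z.1, z.2.tail.tail) else S (z.1, z.2.tail.tail)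
  have h1 : ∀ x, (cardL (P x + 1 + 1) fun l => l.headD false && Q (x, l)) =
      1 + cardL (P x) fun l => R (x, l) := fun x => by
    rw [cardL_succ, cardL_succ]
    simp only [Q, List.headD_cons, List.tail_cons, Bool.true_and, Bool.false_and, cond_true,
      cond_false, cardL_false, cardL_zeros, add_zero]
  have h2 : ∀ x, (cardL (P x + 1 + 1) fun l => !l.headD false && Q (x, l)) =
      1 + cardL (P x) fun l => S (x, l) := fun x => by
    rw [cardL_succ, cardL_succ _ fun l => _ && Q (x, false :: l)]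
    simp only [Q, List.headD_cons, List.tail_cons, Bool.true_and, Bool.false_and, cond_true,
      cond_false, cardL_false, cardL_zeros, Bool.not_true, Bool.not_false, zero_add]
  obtain ⟨lam, rho, c, a1, a2, -, a4⟩ := gap_verifier Q (by fun_prop)
    (fun x => P x + 1) (by fun_prop) fun x => by rw [h1]; omega
  have h3 := pt_val e (L := fun x => ((lam x).sum + N + 1) :: lam x)
    (R := fun x => ((lam x).sum + N + 1) :: rho x) (V := fun _ => []) (by fun_prop) (by fun_prop)
    fun i => (PT.const 0).of_eq fun _ => by simp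
  refine (PT.deq h3 (PT.const 0)).of_eq fun x => ?_
  obtain ⟨c0, n, l, r, b1, b2, b3, b4⟩ := a4 x
  obtain ⟨μ, hμ⟩ := exists_mobius n
  have h4 := h n l r b3 μ hμ
  have h5 : (lam x).sum = n := by rw [← l.parts_sum, b1, Multiset.sum_coe]
  rw [b4 μ hμ, h1, h2, b1, b2] at h4
  rw [List.sum_cons, h5, decide_eq_decide, ← Multiset.cons_coe, ← Multiset.cons_coe, ← h4,
    mul_eq_zero]
  omega

theorem sum_double (n : ℕ) (g : ℕ → ℕ) :
    ∑ i ∈ range (n * 2), g i = ∑ i ∈ range n, g (1 + 2 * i) + ∑ i ∈ range n, g (2 * i) := by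
  induction n with
  | zero => rfl
  | succ n ih =>
    rw [show (n + 1) * 2 = n * 2 + 1 + 1 by ring, sum_range_succ, sum_range_succ, ih,
      sum_range_succ, sum_range_succ, show n * 2 + 1 = 1 + 2 * n by ring, mul_comm n 2]
    ring

/-- The number of `i < s` that pass a test. -/
def cnt (s : ℕ) (φ : ℕ → Bool) : ℕ := ∑ i ∈ range s, if φ i = true then 1 else 0

theorem card_bv (k : ℕ) (φ : ℕ → Bool) : (cardL k fun l => φ (bv l)) = cnt (2 ^ k) φ := by
  induction k generalizing φ with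
  | zero =>
    rw [cnt, pow_zero, sum_range_one]
    cases h : φ 0 <;> simp [cardL, bv, h]
  | succ k ih =>
    rw [cardL_succ, pow_succ, cnt, sum_double]
    exact congrArg₂ (· + ·) (ih fun i => φ (1 + 2 * i))
      ((congrArg _ (funext fun l => by simp [bv])).trans (ih fun i => φ (2 * i)))

theorem eq_cnt (h : Zs e N) {φ ψ : α → ℕ → Bool} (hφ : PT fun p : α × Bin => φ p.1 p.2.val)
    (hψ : PT fun p : α × Bin => ψ p.1 p.2.val) {K : α → ℕ} (hK : PT K) :
    PT fun x => decide (cnt (2 ^ K x) (φ x) = cnt (2 ^ K x) (ψ x)) := by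
  have hb : PB fun p : α × List Bool => bv p.2 := PT.ofBits PT.snd'
  refine (eq_card h (PB.appT hφ PT.fst' hb) (PB.appT hψ PT.fst' hb) hK).of_eq fun x => ?_
  simp only [card_bv]

theorem cnt_lt {s t : ℕ} (h : s ≤ t) (φ : ℕ → Bool) :
    (cnt t fun i => decide (i < s) && φ i) = cnt s φ := by
  unfold cnt
  rw [← sum_subset (range_mono h) fun i _ hi => if_neg (by simp at hi ⊢; omega)]
  exact sum_congr rfl fun i hi => by simp [mem_range.1 hi]

theorem cnt_le (s : ℕ) (φ : ℕ → Bool) : cnt s φ ≤ s :=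
  (sum_le_card_nsmul _ _ 1 fun i _ => by split_ifs <;> omega).trans (by simp)

theorem cnt_true (s : ℕ) : (cnt s fun _ => true) = s := by simp [cnt]

theorem cnt_one {s y : ℕ} (h : y < s) (φ : ℕ → Bool) :
    (cnt s fun i => decide (y = i) && φ i) = if φ y = true then 1 else 0 := by
  unfold cnt
  rw [sum_eq_single y (fun i _ hi => if_neg (by simp [hi.symm])) (by simp [h])]
  simp

theorem bv_bits (K f : ℕ) (h : f < 2 ^ K) :
    bv ((List.range K).map fun j => decide (f / 2 ^ j % 2 = 1)) = f := by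
  induction K generalizing f with
  | zero => simp at h; simp [bv, h]
  | succ K ih =>
    rw [List.range_succ_eq_map, List.map_cons, List.map_map, bv]
    have := ih (f / 2) (by rw [pow_succ] at h; omega)
    simp only [Nat.div_div_eq_div_mul, ← pow_succ'] at this
    simp only [Function.comp_def, Nat.succ_eq_add_one, this, pow_zero, Nat.div_one]
    rcases Nat.mod_two_eq_zero_or_one f with h | h <;> simp [h] <;> omega

theorem pb_cnt (h : Zs e N) {s : α → ℕ} {φ : α → ℕ → Bool} (hs : PB s)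
    (hφ : PT fun p : α × Bin => φ p.1 p.2.val) : PB fun x => cnt (s x) (φ x) := by
  obtain ⟨K, hK, hK'⟩ := hs.bits
  have hf : ∀ x, cnt (s x) (φ x) < 2 ^ K x := fun x => (cnt_le _ _).trans_lt (hK' x)
  have h1 : PT fun p : α × Bin => decide
      ((cnt (2 ^ K p.1) fun i => decide (i < s p.1) && φ p.1 i) =
        cnt (2 ^ K p.1) fun i => decide (i < p.2.val) && true) :=
    eq_cnt h (PT.and (PB.lt (by fun_prop) (by fun_prop)) (PB.appT hφ (by fun_prop) (by fun_prop)))
      (PT.and (PB.lt (by fun_prop) (by fun_prop)) (PT.const _)) (by fun_prop)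
  have h2 : PT fun p : α × Bin =>
      decide (p.2.val < 2 ^ K p.1) && decide (cnt (s p.1) (φ p.1) = p.2.val) := by
    refine (PT.and (PB.lt (f := fun p : α × Bin => p.2.val) (by fun_prop)
      (PB.twoPow (hK.comp PT.fst'))) h1).of_eq fun p => ?_
    by_cases hp : p.2.val < 2 ^ K p.1
    · rw [cnt_lt (hK' _).le, cnt_lt hp.le, cnt_true]
    · simp [hp]
  have h3 : PT fun p : α × ℕ => decide ((cnt (2 ^ K p.1) fun y =>
      (decide (y < 2 ^ K p.1) && decide (cnt (s p.1) (φ p.1) = y)) &&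
        decide (y / 2 ^ p.2 % 2 = 1)) = cnt (2 ^ K p.1) fun _ => false) :=
    eq_cnt h (PT.and (PB.appT (f := fun x y => decide (y < 2 ^ K x) &&
      decide (cnt (s x) (φ x) = y)) h2 (by fun_prop) (by fun_prop))
      (PB.eq (PB.mod (PB.div (by fun_prop) (PB.twoPow (by fun_prop))) (PB.const 2)) (PB.const 1)))
      (PT.const _) (by fun_prop)
  have h4 : PT fun p : α × ℕ => decide (cnt (s p.1) (φ p.1) / 2 ^ p.2 % 2 = 1) := by
    refine h3.not.of_eq fun p => ?_
    simp only [Bool.and_assoc]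
    rw [cnt_lt le_rfl, cnt_one (hf _), show (cnt (2 ^ K p.1) fun _ => false) = 0 by simp [cnt]]
    by_cases hp : cnt (s p.1) (φ p.1) / 2 ^ p.2 % 2 = 1 <;> simp [hp]
  exact (PT.ofBits (PT.map (l := fun x => List.range (K x))
    (f := fun x j => decide (cnt (s x) (φ x) / 2 ^ j % 2 = 1)) h4 (by fun_prop))).of_eq fun x =>
      congrArg Bin.mk (bv_bits _ _ (hf x))

theorem sum_grid (s B : ℕ) (g : ℕ → ℕ → ℕ) :
    ∑ u ∈ range (s * B), g (u / B) (u % B) = ∑ i ∈ range s, ∑ j ∈ range B, g i j := by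
  induction s with
  | zero => simp
  | succ s ih =>
    rw [add_mul, one_mul, sum_range_add, ih, sum_range_succ]
    refine congrArg _ (sum_congr rfl fun j hj => ?_)
    have hj := mem_range.1 hj
    rw [mul_comm, Nat.mul_add_div (by omega), Nat.mul_add_mod, Nat.div_eq_of_lt hj,
      Nat.mod_eq_of_lt hj, add_zero]

theorem col_of_zs (h : Zs e N) : Col := by
  intro α _ s f hs hf
  obtain ⟨t, ht, ht'⟩ := PT.size hf
  have hB : PB fun x => 2 ^ t (2 * sz x + 1 + sz (Bin.mk (s x))) :=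
    PB.twoPow ((PT.isPoly ht).comp (PT.add (by fun_prop) (PT.toSz hs)))
  refine (pb_cnt h (hs.mul hB) (φ := fun x u => decide
    (u % 2 ^ t (2 * sz x + 1 + sz (Bin.mk (s x))) <
      f x (u / 2 ^ t (2 * sz x + 1 + sz (Bin.mk (s x))))))
    (PB.lt (PB.mod (by fun_prop) (hB.comp PT.fst'))
      (PB.app hf PT.fst' (PB.div (by fun_prop) (hB.comp PT.fst'))))).of_eq fun x => ?_
  rw [cnt, sum_grid _ _ fun i j => if decide (j < f x i) = true then 1 else 0]
  refine sum_congr rfl fun i hi => ?_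
  have h1 : f x i ≤ 2 ^ t (2 * sz x + 1 + sz (Bin.mk (s x))) := by
    refine (Bin.lt_two_pow ⟨f x i⟩).le.trans (Nat.pow_le_pow_right two_pos
      ((ht' (x, ⟨i⟩)).trans (ht.mono ?_)))
    have := Bin.sz_mono (mem_range.1 hi).le
    rw [sz_pair]
    omega
  have := cnt_lt h1 fun _ => true
  rw [cnt_true] at this
  simpa [cnt] using this

end Pool.Agent.Work.MP_84e666_co.U
end

section
/-! Large integers that can be computed modulo primes. -/

namespace Pool.Agent.Work.MP_84e666_co.U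

open Finset Pool.Agent.Lib.Poly

/-- Every nonzero residue is a power of `g`. -/
def Gen (p g : ℕ) : Prop := 1 < p ∧ ∀ b < p, b ≠ 0 → ∃ i < p, g ^ i % p = b

theorem exists_gen {p : ℕ} (hp : p.Prime) : ∃ g < p, Gen p g := by
  classical
  have : Fact p.Prime := ⟨hp⟩
  obtain ⟨u, hu⟩ := IsCyclic.exists_monoid_generator (α := (ZMod p)ˣ)
  refine ⟨(u : ZMod p).val, ZMod.val_lt _, hp.one_lt, fun b hb h0 => ?_⟩
  have h1 : (b : ZMod p) ≠ 0 := fun h =>
    h0 (Nat.eq_zero_of_dvd_of_lt ((ZMod.natCast_eq_zero_iff b p).1 h) hb)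
  obtain ⟨i, hi, e⟩ := mem_image.1 (mem_powers_iff_mem_range_orderOf.1 (hu (Units.mk0 _ h1)))
  have h2 := orderOf_le_card_univ (x := u)
  rw [ZMod.card_units] at h2
  refine ⟨i, by have := mem_range.1 hi; omega, ?_⟩
  rw [← Nat.mod_eq_of_lt hb, ← ZMod.natCast_eq_natCast_iff', Nat.cast_pow, ZMod.natCast_zmod_val]
  simpa using congrArg Units.val e

theorem lt_primorial {S j : ℕ} (h2 : S < 2 ^ j) : 2 ^ S < primorial (2 ^ (2 * j + 2)) := by
  by_contra h3
  rw [not_lt, primorial_eq_prod_primesLE] at h3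
  have h4 : Nat.lcmUpto (2 ^ (2 * j + 2)) ≤ (2 ^ S) ^ (2 * j + 2) := by
    refine le_trans ?_ (Nat.pow_le_pow_left h3 _)
    rw [Nat.lcmUpto_eq_prod_pow_log, ← prod_pow]
    refine prod_le_prod' fun p hp => ?_
    have hp := (Nat.mem_primesLE.1 hp).2
    refine Nat.pow_le_pow_right hp.pos ((Nat.log_anti_left one_lt_two hp.two_le).trans ?_)
    rw [Nat.log_pow one_lt_two]
  have h5 : 2 ^ (2 * j + 2) + 1 ≤ 2 ^ (2 * j + 2 + 1) := by
    have := Nat.one_le_two_pow (n := 2 * j + 2)
    rw [pow_succ 2 (2 * j + 2)]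
    omega
  have h6 := (Chebyshev.two_pow_le_mul_lcmUpto (2 ^ (2 * j + 2))).trans (Nat.mul_le_mul h5 h4)
  rw [← pow_mul, ← pow_add, Nat.pow_le_pow_iff_right one_lt_two] at h6
  have h7 : 2 ^ (2 * j + 2) = 4 * (2 ^ j * 2 ^ j) := by ring
  have h8 : j < 2 ^ j := j.lt_two_pow_self
  rw [h7] at h6
  nlinarith

theorem exists_prime {X S j : ℕ} (h0 : X ≠ 0) (h1 : X ≤ 2 ^ S) (h2 : S < 2 ^ j) :
    ∃ p ≤ 2 ^ (2 * j + 2), p.Prime ∧ ¬ p ∣ X := by
  by_contra h
  push Not at h
  exact ((Nat.le_of_dvd (Nat.pos_of_ne_zero h0) (prod_primes_dvd X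
    (fun p hp => (Nat.mem_primesLE.1 hp).2.prime)
    fun p hp => h p (Nat.mem_primesLE.1 hp).1 (Nat.mem_primesLE.1 hp).2)).trans h1).not_gt
      (lt_primorial h2)

/-- The least exponent that gives `b`. -/
def dl (p g b : ℕ) : ℕ :=
  cnt p fun j => decide ((cnt (j + 1) fun i =>
    decide ((if p = 0 then 0 else g ^ i % p) = b)) = 0)

theorem cnt_eq_zero {s : ℕ} {φ : ℕ → Bool} : cnt s φ = 0 ↔ ∀ i < s, φ i = false := by
  simp [cnt]

theorem dl_spec {p g b : ℕ} (h : Gen p g) (hb : b < p) (h0 : b ≠ 0) : g ^ dl p g b % p = b := by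
  have h1 := h.2 b hb h0
  have h2 : dl p g b = Nat.find h1 := by
    have h3 := cnt_lt (Nat.find_spec h1).1.le fun _ => true
    rw [cnt_true] at h3
    rw [← h3, dl, cnt, cnt]
    refine sum_congr rfl fun j hj => if_congr ?_ rfl rfl
    have hj := mem_range.1 hj
    simp only [cnt_eq_zero, if_neg (show p ≠ 0 by omega), decide_eq_true_eq, Bool.and_true,
      decide_eq_false_iff_not, Nat.lt_find_iff, not_and]
    exact ⟨fun h m hm _ => h m (by omega), fun h m hm => h m (by omega) (by omega)⟩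
  rw [h2]
  exact (Nat.find_spec h1).2

variable {α β : Type} [Enc α] [Enc β]

theorem Col.sum (H : Col) {s : α → ℕ} {f : α → ℕ → ℕ} (hs : PB s)
    (hf : PB fun p : α × Bin => f p.1 p.2.val) : PB fun x => ∑ i ∈ range (s x), f x i :=
  H α s f hs hf

theorem Col.cnt (H : Col) {s : α → ℕ} {φ : α → ℕ → Bool} (hs : PB s)
    (hφ : PT fun p : α × Bin => φ p.1 p.2.val) : PB fun x => cnt (s x) (φ x) :=
  H.sum (f := fun x i => if φ x i = true then 1 else 0) hs
    (PB.ite (hφ.of_eq fun _ => by simp) (PB.const 1) (PB.const 0))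

theorem Col.dl (H : Col) {p g b : α → ℕ} (hp : PB p) (hg : PB g) (hb : PB b) :
    PB fun x => dl (p x) (g x) (b x) :=
  H.cnt hp (PB.eq (H.cnt (by fun_prop) (PB.eq
    (PB.powMod (by fun_prop) (by fun_prop) (by fun_prop)) (by fun_prop))) (PB.const 0))

open Classical in
theorem Col.gen (H : Col) {p g : α → ℕ} (hp : PB p) (hg : PB g) :
    PT fun x => decide (Gen (p x) (g x)) := by
  have h1 : PB fun x => U.cnt (p x) fun b => !decide (b = 0) && decide ((U.cnt (p x) fun i =>
      decide ((if p x = 0 then 0 else g x ^ i % p x) = b)) = 0) :=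
    H.cnt hp (PT.and (PB.eq (by fun_prop) (PB.const 0)).not (PB.eq (H.cnt (by fun_prop) (PB.eq
      (PB.powMod (by fun_prop) (by fun_prop) (by fun_prop)) (by fun_prop))) (PB.const 0)))
  refine (PT.and (PB.lt (PB.const 1) hp) (PB.eq h1 (PB.const 0))).of_eq fun x => ?_
  rw [Bool.eq_iff_iff, decide_eq_true_eq]
  simp only [Gen, cnt_eq_zero, Bool.and_eq_true, decide_eq_true_eq]
  refine and_congr_right fun h => forall₂_congr fun b _ => ?_
  by_cases hb : b = 0 <;> simp [hb, show p x ≠ 0 by omega]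

/-- Bounded, and computable modulo every modulus with a generator. -/
def Good (f : α → ℤ) : Prop :=
  (∃ S : α → ℕ, PB S ∧ ∀ x, (f x).natAbs ≤ 2 ^ S x) ∧
    ∃ F : α × Bin × Bin → ℕ, PB F ∧ ∀ x p g, Gen p g → (F (x, ⟨p⟩, ⟨g⟩) : ZMod p) = f x

namespace Good

theorem of_eq {f g : α → ℤ} (hf : Good f) (h : ∀ a, f a = g a) : Good g :=
  (funext h : f = g) ▸ hf

theorem ofPB {f : α → ℕ} (hf : PB f) : Good fun x => (f x : ℤ) :=
  ⟨⟨f, hf, fun x => (f x).lt_two_pow_self.le⟩, fun y => f y.1, by fun_prop, fun _ _ _ _ => by simp⟩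

theorem const (c : ℤ) : Good fun _ : α => c := by
  refine ⟨⟨fun _ => c.natAbs, PB.const _, fun _ => c.natAbs.lt_two_pow_self.le⟩,
    fun y => c.toNat + (y.2.1.val - 1) * (-c).toNat, by fun_prop, fun _ p _ h => ?_⟩
  have h1 : ((p - 1 : ℕ) : ZMod p) = -1 := by
    rw [Nat.cast_sub h.1.le]
    simp
  conv_rhs => rw [← Int.toNat_sub_toNat_neg c]
  simp only [Nat.cast_add, Nat.cast_mul, h1, Int.cast_sub, Int.cast_natCast]
  ring

theorem add {f g : α → ℤ} (hf : Good f) (hg : Good g) : Good fun x => f x + g x := by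
  obtain ⟨⟨S, a1, a2⟩, F, a3, a4⟩ := hf
  obtain ⟨⟨T, b1, b2⟩, G, b3, b4⟩ := hg
  refine ⟨⟨fun x => S x + T x + 1, by fun_prop, fun x => (Int.natAbs_add_le _ _).trans ?_⟩,
    fun y => F y + G y, by fun_prop, fun x p g h => by simp [a4 x p g h, b4 x p g h]⟩
  have h1 := (a2 x).trans (Nat.pow_le_pow_right two_pos (Nat.le_add_right (S x) (T x)))
  have h2 := (b2 x).trans (Nat.pow_le_pow_right two_pos (Nat.le_add_left (T x) (S x)))
  rw [pow_succ]
  omega

theorem mul {f g : α → ℤ} (hf : Good f) (hg : Good g) : Good fun x => f x * g x := by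
  obtain ⟨⟨S, a1, a2⟩, F, a3, a4⟩ := hf
  obtain ⟨⟨T, b1, b2⟩, G, b3, b4⟩ := hg
  refine ⟨⟨fun x => S x + T x, by fun_prop, fun x => ?_⟩,
    fun y => F y * G y, by fun_prop, fun x p g h => by simp [a4 x p g h, b4 x p g h]⟩
  rw [Int.natAbs_mul, pow_add]
  exact Nat.mul_le_mul (a2 x) (b2 x)

theorem ite {c : α → Prop} [∀ x, Decidable (c x)] {f g : α → ℤ} (hc : PT fun x => decide (c x))
    (hf : Good f) (hg : Good g) : Good fun x => if c x then f x else g x := by
  obtain ⟨⟨S, a1, a2⟩, F, a3, a4⟩ := hf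
  obtain ⟨⟨T, b1, b2⟩, G, b3, b4⟩ := hg
  refine ⟨⟨fun x => if c x then S x else T x, PB.ite hc a1 b1, fun x => ?_⟩,
    fun y => if c y.1 then F y else G y, PB.ite (hc.comp PT.fst') a3 b3, fun x p g h => ?_⟩
  · by_cases h : c x <;> simp [h, a2, b2]
  · by_cases h' : c x <;> simp [h', a4 x p g h, b4 x p g h]

theorem comp {f : β → ℤ} {g : α → β} (hf : Good f) (hg : PT g) : Good fun x => f (g x) := by
  obtain ⟨⟨S, a1, a2⟩, F, a3, a4⟩ := hf
  exact ⟨⟨fun x => S (g x), by fun_prop, fun x => a2 _⟩, fun y => F (g y.1, y.2), by fun_prop,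
    fun x p g h => a4 _ p g h⟩

theorem sum (H : Col) {s : α → ℕ} {f : α → ℕ → ℤ} (hs : PB s)
    (hf : Good fun p : α × Bin => f p.1 p.2.val) : Good fun x => ∑ i ∈ range (s x), f x i := by
  obtain ⟨⟨S, a1, a2⟩, F, a3, a4⟩ := hf
  refine ⟨⟨fun x => s x + ∑ i ∈ range (s x), S (x, ⟨i⟩), hs.add (H.sum hs a1), fun x => ?_⟩,
    fun y => ∑ i ∈ range (s y.1), F ((y.1, ⟨i⟩), y.2), H.sum (by fun_prop)
      (a3.comp (g := fun q : (α × Bin × Bin) × Bin => ((q.1.1, q.2), q.1.2)) (by fun_prop)),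
    fun x p g h => by simp [a4 _ p g h]⟩
  refine (Int.natAbs_sum_le _ _).trans ((sum_le_card_nsmul _ _
    (2 ^ ∑ i ∈ range (s x), S (x, ⟨i⟩)) fun i hi => (a2 (x, ⟨i⟩)).trans
      (Nat.pow_le_pow_right two_pos (single_le_sum (f := fun i => S (x, ⟨i⟩))
        (fun _ _ => Nat.zero_le _) hi))).trans ?_)
  rw [card_range, pow_add]
  exact Nat.mul_le_mul_right _ (s x).lt_two_pow_self.le

theorem prod (H : Col) {s : α → ℕ} {f : α → ℕ → ℤ} (hs : PB s)
    (hf : Good fun p : α × Bin => f p.1 p.2.val) : Good fun x => ∏ i ∈ range (s x), f x i := by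
  obtain ⟨⟨S, a1, a2⟩, F, a3, a4⟩ := hf
  have h1 : PB fun q : (α × Bin × Bin) × Bin => F ((q.1.1, q.2), q.1.2) % q.1.2.1.val := by
    fun_prop
  refine ⟨⟨fun x => ∑ i ∈ range (s x), S (x, ⟨i⟩), H.sum hs a1, fun x => ?_⟩,
    fun y => if (cnt (s y.1) fun i => decide (F ((y.1, ⟨i⟩), y.2) % y.2.1.val = 0)) = 0 then
      (if y.2.1.val = 0 then 0 else y.2.2.val ^ (∑ i ∈ range (s y.1),
        dl y.2.1.val y.2.2.val (F ((y.1, ⟨i⟩), y.2) % y.2.1.val)) % y.2.1.val) else 0,
    PB.ite (PB.eq (H.cnt (by fun_prop) (PB.eq h1 (PB.const 0))) (PB.const 0))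
      (PB.powMod (by fun_prop) (H.sum (by fun_prop) (H.dl (by fun_prop) (by fun_prop) h1))
        (by fun_prop)) (PB.const 0), fun x p g h => ?_⟩
  · rw [← prod_pow_eq_pow_sum]
    exact (map_prod Int.natAbsHom _ _).trans_le (prod_le_prod' fun i _ => a2 (x, ⟨i⟩))
  have hp : p ≠ 0 := by have := h.1; omega
  dsimp only
  rw [Int.cast_prod]
  split_ifs with h2
  · rw [ZMod.natCast_mod, Nat.cast_pow, ← prod_pow_eq_pow_sum]
    refine prod_congr rfl fun i hi => ?_
    have h3 := dl_spec h (Nat.mod_lt (F ((x, ⟨i⟩), ⟨p⟩, ⟨g⟩)) (Nat.pos_of_ne_zero hp))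
      (by simpa using cnt_eq_zero.1 h2 i (mem_range.1 hi))
    rw [← a4 (x, ⟨i⟩) p g h, ← Nat.cast_pow, ZMod.natCast_eq_natCast_iff', h3]
  · rw [cnt_eq_zero] at h2
    push Not at h2
    obtain ⟨i, hi, h3⟩ := h2
    refine Nat.cast_zero.trans (prod_eq_zero (mem_range.2 hi) ?_).symm
    rw [← a4 (x, ⟨i⟩) p g h, ZMod.natCast_eq_zero_iff]
    exact Nat.dvd_of_mod_eq_zero (by simpa using h3)

open Classical in
theorem zero (H : Col) {f : α → ℤ} (hf : Good f) : PT fun x => decide (f x = 0) := by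
  obtain ⟨⟨S, a1, a2⟩, F, a3, a4⟩ := hf
  obtain ⟨j, b1, b2⟩ := a1.bits
  have hB : PB fun x => 2 ^ (2 * j x + 2) + 1 := (PB.twoPow (by fun_prop)).add (PB.const 1)
  have h1 : PB fun x => ∑ p ∈ range (2 ^ (2 * j x + 2) + 1), cnt p fun g =>
      decide (Gen p g) && !decide (F (x, ⟨p⟩, ⟨g⟩) % p = 0) :=
    H.sum hB (H.cnt (by fun_prop) (PT.and (H.gen (by fun_prop) (by fun_prop)) (PB.eq
      (PB.mod (a3.comp (g := fun q : (α × Bin) × Bin => (q.1.1, q.1.2, q.2)) (by fun_prop))
        (by fun_prop)) (PB.const 0)).not))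
  refine (PB.eq h1 (PB.const 0)).of_eq fun x => ?_
  rw [decide_eq_decide, sum_eq_zero_iff]
  simp only [cnt_eq_zero, Bool.and_eq_false_imp, decide_eq_true_eq, Bool.not_eq_eq_eq_not,
    Bool.not_false, mem_range]
  constructor
  · intro h
    by_contra h0
    obtain ⟨p, c1, c2, c3⟩ := exists_prime (Int.natAbs_ne_zero.2 h0) (a2 x) (b2 x)
    obtain ⟨g, d1, d2⟩ := exists_gen c2
    have := (ZMod.natCast_eq_zero_iff _ _).2
      (Nat.dvd_of_mod_eq_zero (h p (by omega) g d1 d2))
    rw [a4 x p g d2, ZMod.intCast_zmod_eq_zero_iff_dvd] at this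
    exact c3 (Int.natCast_dvd.1 this)
  · intro h p _ g _ hg
    have := a4 x p g hg
    rw [h, Int.cast_zero, ZMod.natCast_eq_zero_iff] at this
    exact Nat.mod_eq_zero_of_dvd this

end Good

end Pool.Agent.Work.MP_84e666_co.U
end

section
/-! The sign of a large integer from its residues, and the tests on expressions. -/

namespace Pool.Agent.Work.MP_84e666_co.U

open Finset Pool.Agent.Lib.Poly

variable {α β : Type} [Enc α] [Enc β]

/-- The least number below `s` that passes a test. -/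
def least (s : ℕ) (φ : ℕ → Bool) : ℕ := cnt s fun j => decide (cnt (j + 1) φ = 0)

theorem least_spec {s : ℕ} {φ : ℕ → Bool} (h : ∃ i < s, φ i = true) :
    φ (least s φ) = true ∧ ∀ i < s, φ i = true → least s φ ≤ i := by
  have h2 : least s φ = Nat.find h := by
    have h3 := cnt_lt (Nat.find_spec h).1.le fun _ => true
    rw [cnt_true] at h3
    rw [← h3, least, cnt, cnt]
    refine sum_congr rfl fun j hj => if_congr ?_ rfl rfl
    have hj := mem_range.1 hj
    simp only [cnt_eq_zero, decide_eq_true_eq, Bool.and_true, Nat.lt_find_iff, not_and,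
      Bool.not_eq_true]
    exact ⟨fun h m hm _ => h m (by omega), fun h m hm => h m (by omega) (by omega)⟩
  rw [h2]
  exact ⟨(Nat.find_spec h).2, fun i h1 h2 => Nat.find_min' h ⟨h1, h2⟩⟩

theorem Col.least (H : Col) {s : α → ℕ} {φ : α → ℕ → Bool} (hs : PB s)
    (hφ : PT fun p : α × Bin => φ p.1 p.2.val) : PB fun x => least (s x) (φ x) :=
  H.cnt hs (PB.eq (H.cnt (φ := fun p : α × Bin => φ p.1) (by fun_prop)
    (hφ.comp (g := fun q : (α × Bin) × Bin => (q.1.1, q.2)) (by fun_prop))) (PB.const 0))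

theorem Col.prime (H : Col) {p : α → ℕ} (hp : PB p) : PT fun x => decide (p x).Prime := by
  have h1 : PB fun x => U.cnt (p x) fun m => decide (p x % m = 0) && !decide (m = 1) :=
    H.cnt hp (PT.and (PB.eq (by fun_prop) (PB.const 0)) (PB.eq (by fun_prop) (PB.const 1)).not)
  refine (PT.and (PB.lt (PB.const 1) hp) (PB.eq h1 (PB.const 0))).of_eq fun x => ?_
  rw [Bool.eq_iff_iff, decide_eq_true_eq, Nat.prime_def_lt]
  simp [cnt_eq_zero, Nat.dvd_iff_mod_eq_zero, Nat.succ_le_iff]

open Classical in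
theorem Good.res (H : Col) {f : α → ℤ} (hf : Good f) : ∃ R : α → ℕ → ℕ,
    (PB fun q : α × Bin => R q.1 q.2.val) ∧ ∀ x p, p.Prime → (R x p : ZMod p) = f x := by
  obtain ⟨-, F, a3, a4⟩ := hf
  refine ⟨fun x p => F (x, ⟨p⟩, ⟨least p fun g => decide (Gen p g)⟩), a3.comp (PT.fst'.mk
    (PT.snd'.mk (H.least (PB.val PT.snd') (H.gen (by fun_prop) (by fun_prop))))),
    fun x p hp => a4 x p _ ?_⟩
  obtain ⟨g, h1, h2⟩ := exists_gen hp
  exact of_decide_eq_true (least_spec (φ := fun g => decide (Gen p g))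
    ⟨g, h1, decide_eq_true h2⟩).1

/-- The product of the other primes. -/
def cof (B p : ℕ) : ℕ := ∏ q ∈ range (B + 1), if q.Prime ∧ q ≠ p then q else 1

theorem mul_cof {B p : ℕ} (hp : p.Prime) (h : p < B + 1) : p * cof B p = primorial B := by
  have := prod_ite_eq' (range (B + 1)) p fun q => q
  rw [if_pos (mem_range.2 h)] at this
  rw [primorial, prod_filter, cof]
  nth_rw 1 [← this]
  rw [← prod_mul_distrib]
  refine prod_congr rfl fun q _ => ?_
  by_cases e : q = p <;> simp [e, hp]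

theorem cof_ne {B p : ℕ} (hp : p.Prime) : (cof B p : ZMod p) ≠ 0 := by
  have : Fact p.Prime := ⟨hp⟩
  rw [cof, Nat.cast_prod, prod_ne_zero_iff]
  intro q _
  split_ifs with h
  · exact fun e => h.2 ((Nat.prime_dvd_prime_iff_eq hp h.1).1
      ((ZMod.natCast_eq_zero_iff _ _).1 e)).symm
  · simp

theorem crt {B : ℕ} {X : ℤ} {a : ℕ → ℕ}
    (h : ∀ p < B + 1, p.Prime → (a p : ZMod p) * cof B p = X) : (primorial B : ℤ) ∣
      (∑ p ∈ range (B + 1), if p.Prime then a p * cof B p else 0 : ℕ) - X := by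
  rw [primorial, Nat.cast_prod]
  refine prod_dvd_of_coprime (fun p hp q hq e => Nat.isCoprime_iff_coprime.2
    ((Nat.coprime_primes (mem_filter.1 hp).2 (mem_filter.1 hq).2).2 e)) fun p hp => ?_
  obtain ⟨h1, h2⟩ := mem_filter.1 hp
  rw [← ZMod.intCast_zmod_eq_zero_iff_dvd, Int.cast_sub, Int.cast_natCast, Nat.cast_sum,
    sum_eq_single p (fun q _ e => ?_) (fun h => (h h1).elim), if_pos h2, Nat.cast_mul,
    h p (mem_range.1 h1) h2, sub_self]
  split_ifs
  · rw [ZMod.natCast_eq_zero_iff]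
    refine Dvd.dvd.mul_left ?_ _
    have := dvd_prod_of_mem (fun r => if r.Prime ∧ r ≠ q then r else 1) h1
    rwa [if_pos ⟨h2, e.symm⟩] at this
  · exact Nat.cast_zero

theorem approx {A T M D : ℕ} (hM : 0 < M) (hD : 0 < D) (h1 : A * M ≤ 64 * D * T)
    (h2 : 64 * D * T ≤ A * M + D * M) :
    (A % (64 * D) * M ≤ 64 * D * (T % M) ∧ 64 * D * (T % M) ≤ A % (64 * D) * M + D * M) ∨
      (63 * D ≤ A % (64 * D) ∧ 64 * (T % M) ≤ M) := by
  have e := Nat.div_add_mod T M
  have hR := Nat.mod_lt T hM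
  generalize T / M = z, T % M = R at *
  subst e
  rcases le_or_gt (64 * D * z) A with h | h
  · obtain ⟨w, rfl⟩ := Nat.exists_eq_add_of_le h
    have h3 : w * M ≤ 64 * D * R := by nlinarith
    have h4 : w < 64 * D := by
      by_contra h
      nlinarith [Nat.mul_le_mul_right M (not_lt.1 h)]
    rw [Nat.mul_add_mod, Nat.mod_eq_of_lt h4]
    exact Or.inl ⟨h3, by nlinarith⟩
  · obtain ⟨v, hv⟩ := Nat.exists_eq_add_of_lt h
    have h3 : (v + 1) * M + 64 * D * R ≤ D * M := by nlinarith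
    have h4 : v + 1 ≤ D := Nat.le_of_mul_le_mul_right (by omega) hM
    obtain ⟨z, rfl⟩ : ∃ y, z = y + 1 := ⟨z - 1, by
      rcases z with _ | z
      · omega
      · rfl⟩
    have h5 : A = 64 * D * z + (64 * D - (v + 1)) := by
      rw [mul_add, mul_one] at hv
      omega
    rw [h5, Nat.mul_add_mod, Nat.mod_eq_of_lt (by omega)]
    exact Or.inr ⟨by omega, Nat.le_of_mul_le_mul_left (by nlinarith) hD⟩

/-- A fixed-point approximation of the fractional part. -/
def frac (B : ℕ) (a : ℕ → ℕ) : ℕ :=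
  (∑ p ∈ range (B + 1), if p.Prime then a p * (64 * (B + 1)) / p else 0) % (64 * (B + 1))

theorem frac_spec {B : ℕ} {X : ℤ} {a : ℕ → ℕ}
    (h : ∀ p < B + 1, p.Prime → (a p : ZMod p) * cof B p = X) : ∃ R < primorial B,
    (primorial B : ℤ) ∣ R - X ∧
    (9 * primorial B ≤ 64 * R → 64 * R < 56 * primorial B →
      8 * (B + 1) ≤ frac B a ∧ frac B a < 56 * (B + 1)) ∧
    (8 * (B + 1) ≤ frac B a → frac B a < 56 * (B + 1) → R ≠ 0 ∧
      (2 * R < primorial B → frac B a < 32 * (B + 1)) ∧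
      (frac B a < 32 * (B + 1) → 64 * R < 33 * primorial B)) := by
  have hM := primorial_pos B
  have h1 := approx (A := ∑ p ∈ range (B + 1), if p.Prime then a p * (64 * (B + 1)) / p else 0)
    (T := ∑ p ∈ range (B + 1), if p.Prime then a p * cof B p else 0) hM B.succ_pos ?_ ?_
  · refine ⟨_, Nat.mod_lt (∑ p ∈ range (B + 1), if p.Prime then a p * cof B p else 0) hM, ?_, ?_⟩
    · rw [Int.natCast_mod]
      have := (crt h).add (Int.dvd_self_sub_emod (m := primorial B) (x := (∑ p ∈ range (B + 1),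
        if p.Prime then a p * cof B p else 0 : ℕ))).neg_right
      rwa [show ∀ x y z : ℤ, x - y + -(x - z) = z - y from fun _ _ _ => by ring] at this
    rw [Nat.succ_eq_add_one, ← frac] at h1
    generalize (∑ p ∈ range (B + 1), if p.Prime then a p * cof B p else 0) % primorial B = R at *
    generalize frac B a = u, primorial B = M at *
    have hD := B.succ_pos
    rw [Nat.succ_eq_add_one] at hD
    generalize B + 1 = D at *
    refine ⟨fun c1 c2 => ?_, fun c1 c2 => ?_⟩
    · rcases h1 with ⟨h1, h2⟩ | ⟨h1, h2⟩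
      · exact ⟨Nat.le_of_mul_le_mul_right (by nlinarith) hM,
          Nat.lt_of_mul_lt_mul_right (a := M) (by nlinarith)⟩
      · omega
    · rcases h1 with ⟨h1, h2⟩ | ⟨h1, h2⟩
      · refine ⟨?_, fun c3 => Nat.lt_of_mul_lt_mul_right (a := M) (by nlinarith),
          fun c3 => Nat.lt_of_mul_lt_mul_left (a := D) (by nlinarith)⟩
        rintro rfl
        nlinarith [Nat.mul_pos hD hM]
      · omega
  · rw [sum_mul, mul_sum]
    refine sum_le_sum fun p hp => ?_
    split_ifs with h
    · rw [← mul_cof h (mem_range.1 hp)]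
      nlinarith [Nat.mul_le_mul_right (cof B p) (Nat.div_mul_le_self (a p * (64 * (B + 1))) p)]
    · simp
  · rw [sum_mul, mul_sum, ← smul_eq_mul (B.succ), ← card_range B.succ, ← sum_const,
      ← sum_add_distrib, card_range]
    refine sum_le_sum fun p hp => ?_
    split_ifs with h
    · rw [← mul_cof h (mem_range.1 hp)]
      nlinarith [Nat.mul_le_mul_right (cof B p)
        (Nat.lt_div_mul_add (a := a p * (64 * (B + 1))) h.pos).le]
    · simp

theorem sign_spec {B : ℕ} {f : ℤ} {a : ℕ → ℕ → ℕ} (hf : 8 * f.natAbs < primorial B)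
    (h : ∀ k, ∀ p < B + 1, p.Prime → (a k p : ZMod p) * cof B p = (2 ^ k * f : ℤ)) {k : ℕ}
    (hk : k = least (2 * B + 1) fun k =>
      decide (8 * (B + 1) ≤ frac B (a k) ∧ frac B (a k) < 56 * (B + 1))) :
    (8 * (B + 1) ≤ frac B (a k) ∧ frac B (a k) < 32 * (B + 1)) ↔ 0 < f := by
  have hM := primorial_pos B
  choose R r1 r2 r3 r4 using fun k => frac_spec (h k)
  by_cases h0 : f = 0
  · refine iff_of_false (fun ⟨c1, c2⟩ => (r4 k c1 (by omega)).1 ?_) (by omega)
    have := r2 k
    rw [h0, mul_zero, sub_zero, Int.natCast_dvd_natCast] at this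
    exact Nat.eq_zero_of_dvd_of_lt this (r1 k)
  have h1 : 9 * primorial B ≤ 64 * (2 ^ (2 * B) * f.natAbs) := by
    have := primorial_le_four_pow B
    have := Nat.mul_le_mul_left (4 ^ B) (Int.natAbs_pos.2 h0)
    rw [pow_mul, show 2 ^ 2 = 4 from rfl]
    omega
  have hex : ∃ k, 9 * primorial B ≤ 64 * (2 ^ k * f.natAbs) := ⟨_, h1⟩
  have h2 : ∀ i ≤ Nat.find hex, 64 * (2 ^ i * f.natAbs) < 18 * primorial B := by
    intro i hi
    cases i with
    | zero => omega
    | succ i =>
      have := Nat.find_min hex (show i < Nat.find hex by omega)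
      rw [pow_succ, mul_right_comm]
      omega
  have h3 : ∀ i ≤ Nat.find hex, (0 < f → R i = 2 ^ i * f.natAbs) ∧
      (f < 0 → R i + 2 ^ i * f.natAbs = primorial B) := by
    intro i hi
    have c1 := h2 i hi
    have c2 := r1 i
    have c3 : 0 < 2 ^ i * f.natAbs := Nat.mul_pos (Nat.two_pow_pos i) (Int.natAbs_pos.2 h0)
    refine ⟨fun c => ?_, fun c => ?_⟩
    · have c4 : (2 ^ i * f : ℤ) = (2 ^ i * f.natAbs : ℕ) := by
        rw [Nat.cast_mul, Int.natCast_natAbs, abs_of_pos c]
        simp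
      have := Int.eq_zero_of_abs_lt_dvd (c4 ▸ r2 i) (abs_lt.2 ⟨by omega, by omega⟩)
      omega
    · have c4 : (2 ^ i * f : ℤ) = -(2 ^ i * f.natAbs : ℕ) := by
        rw [Nat.cast_mul, Int.natCast_natAbs, abs_of_neg c]
        simp
      have := Int.eq_zero_of_abs_lt_dvd ((c4 ▸ r2 i).sub dvd_rfl) (abs_lt.2 ⟨by omega, by omega⟩)
      omega
  have h4 := Nat.find_spec hex
  have h5 := h2 _ le_rfl
  have h6 : 8 * (B + 1) ≤ frac B (a (Nat.find hex)) ∧ frac B (a (Nat.find hex)) < 56 * (B + 1) := by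
    rcases lt_or_gt_of_ne h0 with c | c
    · have := (h3 _ le_rfl).2 c
      exact r3 _ (by omega) (by omega)
    · have := (h3 _ le_rfl).1 c
      exact r3 _ (by omega) (by omega)
  have h7 : Nat.find hex < 2 * B + 1 := Nat.lt_succ_of_le (Nat.find_min' hex h1)
  obtain ⟨c1, c2⟩ := least_spec (φ := fun k =>
    decide (8 * (B + 1) ≤ frac B (a k) ∧ frac B (a k) < 56 * (B + 1))) ⟨_, h7, decide_eq_true h6⟩
  rw [← hk] at c1 c2
  have c3 := c2 _ h7 (decide_eq_true h6)
  obtain ⟨c4, c5⟩ := of_decide_eq_true c1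
  obtain ⟨-, c6, c7⟩ := r4 k c4 c5
  have c8 := h2 k c3
  refine ⟨fun c => lt_of_le_of_ne (not_lt.1 fun c9 => ?_) (Ne.symm h0), fun c => ⟨c4, c6 ?_⟩⟩
  · have := (h3 k c3).2 c9
    have := c7 c.2
    omega
  · have := (h3 k c3).1 c
    omega

theorem Good.pos (H : Col) {f : α → ℤ} (hf : Good f) : PT fun x => decide (0 < f x) := by
  obtain ⟨R, a1, a2⟩ := hf.res H
  obtain ⟨⟨S, s1, s2⟩, -⟩ := hf
  obtain ⟨j, b1, b2⟩ := (s1.add (PB.const 3)).bits
  obtain ⟨B, hB, hB'⟩ : ∃ B : α → ℕ, PB B ∧ ∀ x, 8 * (f x).natAbs < primorial (B x) :=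
    ⟨fun x => 2 ^ (2 * j x + 2), PB.twoPow (by fun_prop), fun x => by
      have h1 := lt_primorial (b2 x)
      have := s2 x
      rw [pow_add 2 (S x)] at h1
      dsimp only
      omega⟩
  have hc : Good fun q : α × Bin => (cof (B q.1) q.2.val : ℤ) :=
    (Good.prod H (s := fun q : α × Bin => B q.1 + 1)
      (f := fun q r => if r.Prime ∧ r ≠ q.2.val then (r : ℤ) else 1) (by fun_prop)
      (Good.ite (PT.dand (H.prime (by fun_prop)) (PT.dnot (PB.eq (by fun_prop) (by fun_prop))))
        (Good.ofPB (by fun_prop)) (Good.const 1))).of_eq fun q => by simp [cof]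
  obtain ⟨C, c1, c2⟩ := hc.res H
  have c3 : PB fun q : α × Bin => C q q.2.val := PB.app c1 PT.id (by fun_prop)
  have c4 : PB fun q : α × Bin =>
      least q.2.val fun i => decide (i * C q q.2.val % q.2.val = 1) :=
    H.least (by fun_prop) (PB.eq (PB.mod (PB.mul (by fun_prop) (c3.comp PT.fst')) (by fun_prop))
      (PB.const 1))
  obtain ⟨a, d1, d2⟩ : ∃ a : α → ℕ → ℕ → ℕ,
      (PB fun q : (α × Bin) × Bin => a q.1.1 q.1.2.val q.2.val) ∧ ∀ x k p, p.Prime →
        (a x k p : ZMod p) * cof (B x) p = (2 ^ k * f x : ℤ) := by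
    refine ⟨fun x k p => (if p = 0 then 0 else 2 ^ k % p) * R x p *
      least p fun i => decide (i * C (x, ⟨p⟩) p % p = 1),
      ((PB.powMod (PB.const 2) (by fun_prop) (by fun_prop)).mul
        (PB.app a1 (by fun_prop) (by fun_prop))).mul
        (c4.comp (g := fun q : (α × Bin) × Bin => (q.1.1, q.2)) (by fun_prop)),
      fun x k p hp => ?_⟩
    have : Fact p.Prime := ⟨hp⟩
    have e : (C (x, ⟨p⟩) p : ZMod p) = cof (B x) p := (c2 _ p hp).trans (Int.cast_natCast _)
    have e1 : ∀ i : ℕ, i * C (x, ⟨p⟩) p % p = 1 ↔ (i : ZMod p) * cof (B x) p = 1 := fun i => by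
      rw [← e, ← Nat.cast_mul, ← Nat.cast_one (R := ZMod p), ZMod.natCast_eq_natCast_iff',
        Nat.mod_eq_of_lt hp.one_lt]
    have e2 := (e1 _).1 (of_decide_eq_true (least_spec
      (φ := fun i => decide (i * C (x, ⟨p⟩) p % p = 1)) ⟨((cof (B x) p : ZMod p)⁻¹).val,
        ZMod.val_lt _, decide_eq_true ((e1 _).2 (by
          rw [ZMod.natCast_zmod_val, inv_mul_cancel₀ (cof_ne hp)]))⟩).1)
    dsimp only
    rw [if_neg hp.ne_zero, Nat.cast_mul, mul_assoc, e2, Nat.cast_mul, a2 x p hp]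
    simp
  have d3 : PB fun q : α × Bin => frac (B q.1) (a q.1 q.2.val) :=
    PB.mod (H.sum (by fun_prop) (PB.ite (H.prime (by fun_prop))
      (PB.div (d1.mul (by fun_prop)) (by fun_prop)) (PB.const 0))) (by fun_prop)
  have le : ∀ {γ : Type} [Enc γ] {u v : γ → ℕ}, PB u → PB v → PT fun x => decide (u x ≤ v x) :=
    fun hu hv => (PB.lt hv hu).not.of_eq fun _ => by
      rw [← decide_not, decide_eq_decide, not_lt]
  have d4 := PB.app (f := fun x k => frac (B x) (a x k)) d3 PT.id (H.least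
    (s := fun x => 2 * B x + 1) (φ := fun x k => decide (8 * (B x + 1) ≤ frac (B x) (a x k) ∧
      frac (B x) (a x k) < 56 * (B x + 1))) (by fun_prop)
    (PT.dand (le (by fun_prop) d3) (PB.lt d3 (by fun_prop))))
  exact (PT.dand (le (u := fun x => 8 * (B x + 1)) (by fun_prop) d4)
    (PB.lt (g := fun x => 32 * (B x + 1)) d4 (by fun_prop))).of_eq fun x =>
      decide_eq_decide.2 (sign_spec (hB' x) (fun k p _ hp => d2 x k p hp) rfl)

end Pool.Agent.Work.MP_84e666_co.U
end

section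
/-! Division of large integers given by residues. -/

namespace Pool.Agent.Work.MP_84e666_co.U

open Finset Pool.Agent.Lib.Poly

variable {α : Type} [Enc α]

theorem Good.sub {f g : α → ℤ} (hf : Good f) (hg : Good g) : Good fun x => f x - g x :=
  (hf.add ((Good.const (-1)).mul hg)).of_eq fun _ => by ring

theorem Good.twoPow (H : Col) {s : α → ℕ} (hs : PB s) : Good fun x => (2 : ℤ) ^ s x :=
  (Good.prod H (f := fun _ _ => 2) hs (Good.const 2)).of_eq fun _ => by simp

theorem Good.lift {f : α → ℤ} (hf : Good f) : Good fun p : α × Bin => f p.1 := hf.comp PT.fst'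

theorem small_div (H : Col) {T Y : α → ℤ} {K : α → ℕ} (hT : Good T) (hY : Good Y) (hK : PB K)
    (h : ∀ x, 0 < Y x ∧ 0 ≤ T x ∧ T x < K x * Y x) : Good fun x => T x / Y x := by
  refine (Good.ofPB (H.cnt (φ := fun x i => !decide (0 < ((i : ℤ) + 1) * Y x - T x)) hK
    (((((Good.ofPB (PB.val PT.snd')).add (Good.const 1)).mul hY.lift).sub hT.lift).pos H).not)).of_eq
    fun x => ?_
  obtain ⟨h1, h2, h3⟩ := h x
  have h4 := Int.ediv_nonneg h2 h1.le
  have h5 := (Int.ediv_lt_iff_lt_mul h1).2 h3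
  have h6 := cnt_lt (show (T x / Y x).toNat ≤ K x by omega) fun _ => true
  rw [cnt_true] at h6
  rw [← Int.toNat_of_nonneg h4, ← h6]
  refine congrArg _ (congrArg _ (funext fun i => ?_))
  have := Int.le_ediv_iff_mul_le (a := i + 1) (b := T x) h1
  rw [Bool.eq_iff_iff]
  simp only [Bool.not_eq_true', decide_eq_false_iff_not, Bool.and_true, decide_eq_true_eq]
  omega

/-- A product of selected numbers. -/
def prodP (P : ℕ → Bool) (B : ℕ) : ℕ := ∏ q ∈ range (B + 1) with P q = true, q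

theorem good_prodP (H : Col) {P : α → ℕ → Bool} {B : α → ℕ} (hB : PB B)
    (hP : PT fun p : α × Bin => P p.1 p.2.val) : Good fun x => (prodP (P x) (B x) : ℤ) :=
  (Good.prod H (s := fun x => B x + 1) (f := fun x q => if P x q = true then (q : ℤ) else 1)
    (by fun_prop) (Good.ite (hP.of_eq fun _ => by simp) (Good.ofPB (by fun_prop))
      (Good.const 1))).of_eq fun x => by simp [prodP, prod_filter]

theorem prodP_pos {P : ℕ → Bool} (h : ∀ q, P q = true → q.Prime) (B : ℕ) : 0 < prodP P B :=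
  prod_pos fun q hq => (h q (mem_filter.1 hq).2).pos

theorem filter_ne (P : ℕ → Bool) (B p : ℕ) :
    ((range (B + 1)).filter fun q => (P q && !decide (q = p)) = true) =
      ((range (B + 1)).filter fun q => P q = true).erase p := by
  ext q
  simp only [mem_filter, mem_erase, Bool.and_eq_true, Bool.not_eq_true', decide_eq_false_iff_not]
  tauto

theorem Col.inv (H : Col) {C : α → ℕ → ℕ} (hC : PB fun q : α × Bin => C q.1 q.2.val) :
    ∃ I : α → ℕ → ℕ, (PB fun q : α × Bin => I q.1 q.2.val) ∧ ∀ x p, p.Prime →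
      (C x p : ZMod p) ≠ 0 → (I x p : ZMod p) * C x p = 1 := by
  refine ⟨fun x p => U.least p fun i => decide (i * C x p % p = 1), H.least (by fun_prop)
    (PB.eq (PB.mod (PB.mul (by fun_prop) (hC.comp PT.fst')) (by fun_prop)) (PB.const 1)),
    fun x p hp h0 => ?_⟩
  have : Fact p.Prime := ⟨hp⟩
  have e1 : ∀ i : ℕ, i * C x p % p = 1 ↔ (i : ZMod p) * C x p = 1 := fun i => by
    rw [← Nat.cast_mul, ← Nat.cast_one (R := ZMod p), ZMod.natCast_eq_natCast_iff',
      Nat.mod_eq_of_lt hp.one_lt]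
  exact (e1 _).1 (of_decide_eq_true (least_spec (φ := fun i => decide (i * C x p % p = 1))
    ⟨((C x p : ZMod p)⁻¹).val, ZMod.val_lt _, decide_eq_true ((e1 _).2 (by
      rw [ZMod.natCast_zmod_val, inv_mul_cancel₀ h0]))⟩).1)

theorem good_rem (H : Col) {P : α → ℕ → Bool} {B : α → ℕ} (hB : PB B)
    (hP : PT fun p : α × Bin => P p.1 p.2.val) (h1 : ∀ x q, P x q = true → q.Prime) {X : α → ℤ}
    {R : α → ℕ → ℕ} (hR : PB fun p : α × Bin => R p.1 p.2.val)
    (h2 : ∀ x p, P x p = true → (R x p : ZMod p) = X x) :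
    Good fun x => X x % prodP (P x) (B x) := by
  have hc : Good fun q : α × Bin =>
      (prodP (fun r => P q.1 r && !decide (r = q.2.val)) (B q.1) : ℤ) :=
    good_prodP H (by fun_prop) (PT.and (hP.comp (g := fun q : (α × Bin) × Bin => (q.1.1, q.2))
      (by fun_prop)) (PB.eq (by fun_prop) (by fun_prop)).not)
  obtain ⟨C, c1, c2⟩ := hc.res H
  obtain ⟨I, c3, c4⟩ := H.inv (C := fun x p => C (x, ⟨p⟩) p) (PB.app c1 PT.id (by fun_prop))
  have hM := good_prodP H hB hP
  have hT : Good fun x => ∑ p ∈ range (B x + 1), if P x p = true then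
      ((R x p * I x p % p : ℕ) : ℤ) * prodP (fun r => P x r && !decide (r = p)) (B x) else 0 :=
    Good.sum H (by fun_prop) (Good.ite (hP.of_eq fun _ => by simp)
      ((Good.ofPB ((hR.mul c3).mod (by fun_prop))).mul hc) (Good.const 0))
  have e : ∀ x, ∀ p ∈ range (B x + 1), P x p = true →
      p * prodP (fun r => P x r && !decide (r = p)) (B x) = prodP (P x) (B x) := fun x p hp h => by
    rw [prodP, filter_ne]
    exact mul_prod_erase _ (fun q => q) (mem_filter.2 ⟨hp, h⟩)
  refine (hT.sub (hM.mul (small_div H (K := fun x => B x + 2) hT hM (by fun_prop) fun x =>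
    ⟨by exact_mod_cast prodP_pos (h1 x) _, sum_nonneg fun p _ => by positivity, ?_⟩))).of_eq
    fun x => ?_
  · have h0 := prodP_pos (h1 x) (B x)
    refine (sum_le_card_nsmul _ _ (prodP (P x) (B x) : ℤ) fun p hp => ?_).trans_lt ?_
    · split_ifs with h
      · rw [← e x p hp h]
        exact_mod_cast Nat.mul_le_mul_right _ (Nat.mod_lt _ (h1 x p h).pos).le
      · positivity
    · rw [card_range, nsmul_eq_mul]
      exact_mod_cast Nat.mul_lt_mul_of_pos_right (by omega) h0
  rw [← Int.emod_def, Int.emod_eq_emod_iff_emod_sub_eq_zero]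
  refine Int.emod_eq_zero_of_dvd ?_
  rw [prodP, Nat.cast_prod]
  refine prod_dvd_of_coprime (fun p hp q hq e => Nat.isCoprime_iff_coprime.2 ((Nat.coprime_primes
    (h1 x p (mem_filter.1 hp).2) (h1 x q (mem_filter.1 hq).2)).2 e)) fun p hp => ?_
  obtain ⟨d1, d2⟩ := mem_filter.1 hp
  have d3 := h1 x p d2
  have : Fact p.Prime := ⟨d3⟩
  have d4 : (C (x, ⟨p⟩) p : ZMod p) = prodP (fun r => P x r && !decide (r = p)) (B x) :=
    (c2 _ p d3).trans (Int.cast_natCast _)
  have d5 := c4 x p d3 (by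
    rw [d4, prodP, Nat.cast_prod, prod_ne_zero_iff]
    intro q hq e
    have hq := (mem_filter.1 hq).2
    simp only [Bool.and_eq_true, Bool.not_eq_true', decide_eq_false_iff_not] at hq
    exact hq.2 ((Nat.prime_dvd_prime_iff_eq d3 (h1 x q hq.1)).1
      ((ZMod.natCast_eq_zero_iff _ _).1 e)).symm)
  rw [← ZMod.intCast_zmod_eq_zero_iff_dvd, Int.cast_sub, Int.cast_sum,
    sum_eq_single p (fun q _ e => ?_) (fun h => (h d1).elim), if_pos d2, Int.cast_mul,
    Int.cast_natCast, Int.cast_natCast, ZMod.natCast_mod, Nat.cast_mul, ← d4, mul_assoc, d5,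
    h2 x p d2, mul_one, sub_self]
  split_ifs
  · rw [ZMod.intCast_zmod_eq_zero_iff_dvd]
    exact Dvd.dvd.mul_left (Int.natCast_dvd_natCast.2 (dvd_prod_of_mem (fun r => r)
      (mem_filter.2 ⟨d1, by simp [d2, e.symm]⟩))) _
  · exact Int.cast_zero

theorem exact_div (H : Col) {W Y : α → ℤ} (hW : Good W) (hY : Good Y)
    (h : ∀ x, Y x ≠ 0 ∧ Y x ∣ W x) : Good fun x => W x / Y x := by
  obtain ⟨RW, a1, a2⟩ := hW.res H
  obtain ⟨RY, a3, a4⟩ := hY.res H
  obtain ⟨I, a5, a6⟩ := H.inv a3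
  obtain ⟨⟨S, s1, s2⟩, -⟩ := hW
  obtain ⟨⟨U, s3, s4⟩, -⟩ := hY
  obtain ⟨j, b1, b2⟩ := ((s1.add (PB.const 1)).add s3).bits
  have h1 : ∀ x q, (decide q.Prime && !decide (RY x q % q = 0)) = true ↔
      q.Prime ∧ (Y x : ZMod q) ≠ 0 := fun x q => by
    simp only [Bool.and_eq_true, Bool.not_eq_true', decide_eq_false_iff_not, decide_eq_true_eq]
    exact and_congr_right fun hq => by
      rw [← a4 x q hq, Ne, ZMod.natCast_eq_zero_iff, Nat.dvd_iff_mod_eq_zero]
  refine ((good_rem H (P := fun x q => decide q.Prime && !decide (RY x q % q = 0))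
    (B := fun x => 2 ^ (2 * j x + 2)) (X := fun x => W x / Y x + 2 ^ S x)
    (R := fun x p => RW x p * I x p + if p = 0 then 0 else 2 ^ S x % p) (PB.twoPow (by fun_prop))
    (PT.and (H.prime (by fun_prop)) (PB.eq (a3.mod (by fun_prop)) (PB.const 0)).not)
    (fun x q hq => ((h1 x q).1 hq).1)
    ((a1.mul a5).add (PB.powMod (PB.const 2) (by fun_prop) (by fun_prop))) fun x p hp => ?_).sub
      (Good.twoPow H s1)).of_eq fun x => ?_
  · obtain ⟨c1, c2⟩ := (h1 x p).1 hp
    have c3 := a6 x p c1 (by rwa [a4 x p c1])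
    rw [a4 x p c1] at c3
    rw [if_neg c1.ne_zero, Nat.cast_add, Nat.cast_mul, a2 x p c1, ZMod.natCast_mod, Int.cast_add]
    conv_lhs => rw [← Int.ediv_mul_cancel (h x).2, Int.cast_mul, mul_assoc, mul_comm _ (I x p : ZMod p),
      c3, mul_one]
    simp
  have c1 := (Int.natAbs_ediv_le_natAbs (W x) (Y x)).trans (s2 x)
  have c2 := lt_primorial (b2 x)
  have c3 : ∏ q ∈ (Nat.primesLE (2 ^ (2 * j x + 2))).filter fun q => (Y x : ZMod q) = 0, q ≤
      2 ^ U x := by
    refine (Nat.le_of_dvd (Int.natAbs_pos.2 (h x).1) (prod_primes_dvd _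
      (fun p hp => (Nat.mem_primesLE.1 (mem_filter.1 hp).1).2.prime) fun p hp => ?_)).trans (s4 x)
    exact Int.natCast_dvd.1 ((ZMod.intCast_zmod_eq_zero_iff_dvd _ _).1 (mem_filter.1 hp).2)
  have c4 : prodP (fun q => decide q.Prime && !decide (RY x q % q = 0)) (2 ^ (2 * j x + 2)) =
      ∏ q ∈ (Nat.primesLE (2 ^ (2 * j x + 2))).filter fun q => ¬ (Y x : ZMod q) = 0, q := by
    refine prod_congr (Finset.ext fun q => ?_) fun _ _ => rfl
    simp only [mem_filter, h1, Nat.mem_primesLE, mem_range, Nat.lt_succ_iff, and_assoc]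
  rw [primorial_eq_prod_primesLE, ← prod_filter_mul_prod_filter_not _ fun q => (Y x : ZMod q) = 0,
    ← c4, pow_add, mul_comm] at c2
  have c5 := Nat.lt_of_mul_lt_mul_left (c2.trans_le (Nat.mul_le_mul_right _ c3))
  rw [pow_succ] at c5
  have c6 : ((2 ^ S x : ℕ) : ℤ) = 2 ^ S x := by simp
  rw [Int.emod_eq_of_lt (by omega) (by omega), add_sub_cancel_right]

theorem div_prodP (H : Col) {P : α → ℕ → Bool} {B : α → ℕ} (hB : PB B)
    (hP : PT fun p : α × Bin => P p.1 p.2.val) (h1 : ∀ x q, P x q = true → q.Prime) {X : α → ℤ}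
    (hX : Good X) : Good fun x => X x / prodP (P x) (B x) := by
  obtain ⟨R, a1, a2⟩ := hX.res H
  have h0 : ∀ x, (prodP (P x) (B x) : ℤ) ≠ 0 := fun x => by
    exact_mod_cast (prodP_pos (h1 x) _).ne'
  refine (exact_div H (hX.sub (good_rem H hB hP h1 a1 fun x p hp => a2 x p (h1 x p hp)))
    (good_prodP H hB hP) fun x => ⟨h0 x, Int.dvd_self_sub_emod⟩).of_eq fun x => ?_
  rw [Int.emod_def, sub_sub_cancel, Int.mul_ediv_cancel_left _ (h0 x)]

theorem many_primes {m i : ℕ} (h : m < 2 ^ i) :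
    m ≤ Nat.count Nat.Prime (2 ^ (2 * (2 * i + 4) + 2) + 1) := by
  have h1 : (2 * (2 * i + 4) + 2) * m < 2 ^ (2 * i + 4) := by
    have h2 : i < 2 ^ i := i.lt_two_pow_self
    rw [show 2 ^ (2 * i + 4) = 16 * (2 ^ i * 2 ^ i) by ring]
    nlinarith
  have h2 := (lt_primorial h1).trans_le (prod_le_pow_card _ _ (2 ^ (2 * (2 * i + 4) + 2))
    fun p hp => Nat.lt_succ_iff.1 (mem_range.1 (mem_filter.1 hp).1))
  rw [← Nat.count_eq_card_filter_range, ← pow_mul, Nat.pow_lt_pow_iff_right one_lt_two] at h2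
  exact (Nat.lt_of_mul_lt_mul_left h2).le

theorem block_le {n L B j : ℕ} (h : n * L ≤ Nat.count Nat.Prime (B + 1)) (hj : j < n) :
    2 ^ L ≤ prodP (fun q => decide q.Prime && decide (Nat.count Nat.Prime q / L = j)) B := by
  refine le_trans (Nat.pow_le_pow_right two_pos ?_) (pow_card_le_prod _ _ 2 fun q hq => ?_)
  · rw [← card_range L]
    refine card_le_card_of_injOn (fun i => Nat.nth Nat.Prime (j * L + i)) (fun i hi => ?_)
      fun a _ b _ e => by simpa using Nat.nth_injective Nat.infinite_setOfPred_prime e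
    have hi := mem_range.1 hi
    rw [card_range, coe_filter, Set.mem_ofPred_eq, mem_range, Bool.and_eq_true, decide_eq_true_eq,
      decide_eq_true_eq, Nat.count_nth_of_infinite Nat.infinite_setOfPred_prime]
    refine ⟨Nat.nth_lt_of_lt_count (by nlinarith), Nat.prime_nth_prime _, ?_⟩
    rw [mul_comm, Nat.mul_add_div (by omega), Nat.div_eq_of_lt hi, add_zero]
  · have := (mem_filter.1 hq).2
    simp only [Bool.and_eq_true, decide_eq_true_eq] at this
    exact this.1.two_le

theorem prod_blocks (n L B : ℕ) : ∏ j ∈ range n, prodP (fun q => decide q.Prime &&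
    decide (Nat.count Nat.Prime q / L = j)) B =
    prodP (fun q => decide q.Prime && decide (Nat.count Nat.Prime q / L < n)) B := by
  refine Eq.trans ?_ (prod_fiberwise_of_maps_to (g := fun q => Nat.count Nat.Prime q / L)
    (t := range n) (fun q hq => by simpa using (Bool.and_eq_true_iff.1 (mem_filter.1 hq).2).2) _)
  refine prod_congr rfl fun j hj => prod_congr (Finset.ext fun q => ?_) fun _ _ => rfl
  have := mem_range.1 hj
  simp only [mem_filter, Bool.and_eq_true, decide_eq_true_eq]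
  exact ⟨fun h => ⟨⟨h.1, h.2.1, by omega⟩, h.2.2⟩, fun h => ⟨h.1.1, h.1.2.1, h.2⟩⟩

theorem prod_half {A F : ℕ → ℤ} {Y : ℤ} (n : ℕ)
    (h : ∀ j < n, 0 ≤ F j ∧ 2 * F j ≤ A j ∧ Y ∣ A j - F j) : 0 ≤ ∏ j ∈ range n, F j ∧
    2 ^ n * ∏ j ∈ range n, F j ≤ ∏ j ∈ range n, A j ∧
    Y ∣ ∏ j ∈ range n, A j - ∏ j ∈ range n, F j := by
  induction n with
  | zero => simp
  | succ n ih =>
    obtain ⟨a1, a2, a3⟩ := ih fun j hj => h j (by omega)
    obtain ⟨b1, b2, b3⟩ := h n (by omega)
    rw [prod_range_succ, prod_range_succ]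
    refine ⟨mul_nonneg a1 b1, ?_, ?_⟩
    · rw [pow_succ, mul_mul_mul_comm]
      exact mul_le_mul a2 b2 (by omega) (le_trans (by positivity) a2)
    · have := (a3.mul_right (A n)).add (b3.mul_left (∏ j ∈ range n, F j))
      rwa [show ∀ a b c d : ℤ, (a - b) * c + b * (c - d) = a * c - b * d from
        fun _ _ _ _ => by ring] at this

theorem near_div {X Y M E W S : ℤ} (hY : 0 < Y) (hM : 0 < M) (hE : 0 ≤ E) (h1 : |X| ≤ S)
    (h2 : S * 2 * E ≤ M) (h3 : W * Y = M - E) :
    0 ≤ X - (X * W / M - 1) * Y ∧ X - (X * W / M - 1) * Y < (3 : ℕ) * Y := by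
  have a1 := Int.ediv_mul_le (X * W) hM.ne'
  have a2 := Int.lt_ediv_add_one_mul_self (X * W) hM
  generalize X * W / M = Q at *
  obtain ⟨b1, b2⟩ := abs_le.1 h1
  have c1 := mul_le_mul_of_nonneg_right a1 hY.le
  have c2 := mul_lt_mul_of_pos_right a2 hY
  rw [mul_assoc X, h3] at c1 c2
  have c3 : M ≤ M * Y := le_mul_of_one_le_right hM.le hY
  have c4 := mul_le_mul_of_nonneg_right b1 hE
  have c5 := mul_le_mul_of_nonneg_right b2 hE
  exact ⟨le_of_mul_le_mul_left (by nlinarith) hM, lt_of_mul_lt_mul_left (by push_cast; nlinarith) hM.le⟩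

theorem Good.ediv (H : Col) {X Y : α → ℤ} (hX : Good X) (hY : Good Y) (h0 : ∀ x, 0 < Y x) :
    Good fun x => X x / Y x := by
  obtain ⟨S, s1, s2⟩ := hX.1
  obtain ⟨L, s3, s4⟩ := hY.1
  have hn : PB fun x => S x + 1 := by fun_prop
  obtain ⟨i, b1, b2⟩ := (hn.mul s3).bits
  have hB : PB fun x => 2 ^ (2 * (2 * i x + 4) + 2) := PB.twoPow (by fun_prop)
  have hc : ∀ {γ : Type} [Enc γ] {q : γ → ℕ}, PB q → PB fun x => Nat.count Nat.Prime (q x) :=
    fun hq => (H.cnt (φ := fun _ r => decide r.Prime) hq (H.prime (by fun_prop))).of_eq fun _ => by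
      simp [cnt, Nat.count_eq_card_filter_range]
  obtain ⟨A, a1, a2, a3⟩ : ∃ A : α → ℕ → ℤ, (Good fun q : α × Bin => A q.1 q.2.val) ∧
      (∀ x, ∀ j < S x + 1, Y x ≤ A x j) ∧ ∀ x, ∏ j ∈ range (S x + 1), A x j =
        prodP (fun q => decide q.Prime && decide (Nat.count Nat.Prime q / L x < S x + 1))
          (2 ^ (2 * (2 * i x + 4) + 2)) := by
    refine ⟨fun x j => prodP (fun q => decide q.Prime && decide (Nat.count Nat.Prime q / L x = j))
      (2 ^ (2 * (2 * i x + 4) + 2)), good_prodP H (hB.comp PT.fst') (PT.and (H.prime (by fun_prop))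
        (PB.eq ((hc (by fun_prop)).div (by fun_prop)) (by fun_prop))), fun x j hj => ?_,
      fun x => by rw [← prod_blocks, Nat.cast_prod]⟩
    have := (s4 x).trans (block_le (many_primes (b2 x)) hj)
    dsimp only
    omega
  obtain ⟨U, s5, s6⟩ := a1.1
  have hk : PB fun q : α × Bin =>
      least (U q + 1) fun k => decide (0 < 2 ^ (k + 1) * Y q.1 - A q.1 q.2.val) :=
    H.least (by fun_prop) ((((Good.twoPow H (by fun_prop)).mul hY.lift.lift).sub a1.lift).pos H)
  obtain ⟨F, f1, f2⟩ : ∃ F : α → ℕ → ℤ, (Good fun q : α × Bin => F q.1 q.2.val) ∧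
      ∀ x, ∀ j < S x + 1, 0 ≤ F x j ∧ 2 * F x j ≤ A x j ∧ Y x ∣ A x j - F x j := by
    refine ⟨fun x j => A x j - 2 ^ (least (U (x, ⟨j⟩) + 1) fun k =>
      decide (0 < 2 ^ (k + 1) * Y x - A x j)) * Y x,
      a1.sub ((Good.twoPow H hk).mul hY.lift), fun x j hj => ?_⟩
    have c0 := h0 x
    have c1 : 0 < 2 ^ (U (x, ⟨j⟩) + 1) * Y x - A x j := by
      have c2 := s6 (x, ⟨j⟩)
      have c3 : ((2 ^ U (x, ⟨j⟩) : ℕ) : ℤ) = 2 ^ U (x, ⟨j⟩) := by simp
      have c4 : (2 : ℤ) ^ (U (x, ⟨j⟩) + 1) ≤ 2 ^ (U (x, ⟨j⟩) + 1) * Y x :=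
        le_mul_of_one_le_right (by positivity) c0
      have c5 : (0 : ℤ) < 2 ^ U (x, ⟨j⟩) := by positivity
      rw [pow_succ] at c4 ⊢
      dsimp only at c2
      omega
    obtain ⟨c2, c3⟩ := least_spec (s := U (x, ⟨j⟩) + 1)
      (φ := fun k => decide (0 < 2 ^ (k + 1) * Y x - A x j)) ⟨_, Nat.lt_succ_self _, decide_eq_true c1⟩
    have c4 := c3 _ (Nat.lt_succ_self _) (decide_eq_true c1)
    dsimp only
    generalize least _ _ = k at *
    have c5 := of_decide_eq_true c2
    rw [pow_succ, mul_right_comm] at c5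
    refine ⟨?_, by omega, by rw [sub_sub_cancel]; exact dvd_mul_left _ _⟩
    cases k with
    | zero => simpa using a2 x j hj
    | succ k =>
      by_contra c6
      have := c3 k (by omega) (decide_eq_true (by omega))
      omega
  have hM := Good.prod H hn a1
  have hM0 : ∀ x, 0 < ∏ j ∈ range (S x + 1), A x j := fun x =>
    prod_pos fun j hj => (h0 x).trans_le (a2 x j (mem_range.1 hj))
  have hW := exact_div H (hM.sub (Good.prod H hn f1)) hY fun x =>
    ⟨(h0 x).ne', (prod_half _ (f2 x)).2.2⟩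
  have hQ := ((div_prodP H hB (P := fun x q => decide q.Prime &&
    decide (Nat.count Nat.Prime q / L x < S x + 1)) (PT.and (H.prime (by fun_prop))
      (PB.lt ((hc (by fun_prop)).div (by fun_prop)) (by fun_prop)))
    (fun _ _ h => of_decide_eq_true (Bool.and_eq_true_iff.1 h).1) (hX.mul hW))).sub (Good.const 1)
  simp only [← a3] at hQ
  refine ((small_div H (hX.sub (hQ.mul hY)) hY (PB.const 3) fun x => ⟨h0 x, near_div (h0 x) (hM0 x)
    (S := 2 ^ S x) (prod_half _ (f2 x)).1 ?_ ?_ (Int.ediv_mul_cancel (prod_half _ (f2 x)).2.2)⟩).add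
    hQ).of_eq fun x => ?_
  · rw [← Int.natCast_natAbs]
    exact_mod_cast s2 x
  · rw [← pow_succ]
    exact (prod_half _ (f2 x)).2.1
  · rw [← Int.add_mul_ediv_right _ _ (h0 x).ne', sub_add_cancel]

/-- Numerator and denominator of the value of an expression. -/
def nd (n : ℕ) (l r : Multiset ℕ) : Form → List ℕ → ℤ × ℤ
  | .num c, _ => (c, 1)
  | .var i, v => (v.getD i 0, 1)
  | .multL i, v => (l.count (v.getD i 0), 1)
  | .multR i, v => (r.count (v.getD i 0), 1)
  | .add a b, v => ((nd n l r a v).1 * (nd n l r b v).2 + (nd n l r b v).1 * (nd n l r a v).2,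
      (nd n l r a v).2 * (nd n l r b v).2)
  | .mul a b, v => ((nd n l r a v).1 * (nd n l r b v).1, (nd n l r a v).2 * (nd n l r b v).2)
  | .inv a, v => (if (nd n l r a v).1 = 0 then 0 else (nd n l r a v).2,
      if (nd n l r a v).1 = 0 then 1 else (nd n l r a v).1)
  | .floor a, v =>
      ((nd n l r a v).1 * (nd n l r a v).2 / ((nd n l r a v).2 * (nd n l r a v).2), 1)
  | .sum a, v => (∑ x ∈ range (n + 1), (nd n l r a (x :: v)).1 *
        ∏ y ∈ range (n + 1), if y = x then 1 else (nd n l r a (y :: v)).2,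
      ∏ y ∈ range (n + 1), (nd n l r a (y :: v)).2)
  | .prod a, v => (∏ x ∈ range (n + 1), (nd n l r a (x :: v)).1,
      ∏ x ∈ range (n + 1), (nd n l r a (x :: v)).2)

theorem nd_spec (n : ℕ) (l r : Multiset ℕ) (e : Form) : ∀ v, ((nd n l r e v).2 : ℚ) ≠ 0 ∧
    e.val n l r v = (nd n l r e v).1 / (nd n l r e v).2 := by
  induction e with
  | num c => intro v; simp [nd, Form.val]
  | var i => intro v; simp [nd, Form.val]
  | multL i => intro v; simp [nd, Form.val]
  | multR i => intro v; simp [nd, Form.val]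
  | add a b ha hb =>
    intro v
    obtain ⟨a1, a2⟩ := ha v
    obtain ⟨b1, b2⟩ := hb v
    simp only [nd, Form.val, a2, b2, Int.cast_mul, Int.cast_add]
    exact ⟨mul_ne_zero a1 b1, by field_simp⟩
  | mul a b ha hb =>
    intro v
    obtain ⟨a1, a2⟩ := ha v
    obtain ⟨b1, b2⟩ := hb v
    simp only [nd, Form.val, a2, b2, Int.cast_mul]
    exact ⟨mul_ne_zero a1 b1, by field_simp⟩
  | inv a ha =>
    intro v
    obtain ⟨a1, a2⟩ := ha v
    by_cases h : (nd n l r a v).1 = 0 <;> simp [nd, Form.val, a2, h]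
  | floor a ha =>
    intro v
    obtain ⟨a1, a2⟩ := ha v
    have := Rat.floor_intCast_div_natCast ((nd n l r a v).1 * (nd n l r a v).2)
      ((nd n l r a v).2.natAbs * (nd n l r a v).2.natAbs)
    rw [Int.natAbs_mul_self, ← Int.cast_natCast, Int.natAbs_mul_self, Int.cast_mul, Int.cast_mul,
      mul_div_mul_right _ _ a1] at this
    simp [nd, Form.val, a2, this]
  | sum a ha =>
    intro v
    simp only [nd, Form.val, Int.cast_prod, Int.cast_sum, Int.cast_mul, Int.cast_ite, Int.cast_one]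
    have h0 := prod_ne_zero_iff.2 fun y (_ : y ∈ range (n + 1)) => (ha (y :: v)).1
    refine ⟨h0, ?_⟩
    rw [sum_div]
    refine sum_congr rfl fun x hx => ?_
    have h1 : ∏ y ∈ range (n + 1), ((nd n l r a (y :: v)).2 : ℚ) = (nd n l r a (x :: v)).2 *
        ∏ y ∈ range (n + 1), if y = x then 1 else ((nd n l r a (y :: v)).2 : ℚ) := by
      have := prod_ite_eq' (range (n + 1)) x fun y => ((nd n l r a (y :: v)).2 : ℚ)
      rw [if_pos hx] at this
      rw [← this, ← prod_mul_distrib]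
      exact prod_congr rfl fun y _ => by split_ifs <;> simp
    rw [h1] at h0 ⊢
    rw [(ha _).2, mul_div_mul_right _ _ (right_ne_zero_of_mul h0)]
  | prod a ha =>
    intro v
    simp only [nd, Form.val, Int.cast_prod]
    exact ⟨prod_ne_zero_iff.2 fun y _ => (ha (y :: v)).1, by
      rw [← prod_div_distrib]
      exact prod_congr rfl fun x _ => (ha _).2⟩

theorem pb_cons_env {V : α → List ℕ} (hV : ∀ i, PB fun x => (V x).getD i 0) (i : ℕ) :
    PB fun p : α × Bin => (p.2.val :: V p.1).getD i 0 := by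
  cases i with
  | zero => exact PB.val PT.snd'
  | succ i => exact (hV i).comp PT.fst'

theorem good_nd (H : Col) (e : Form) : ∀ {α : Type} [Enc α] {n : α → ℕ} {l r : α → Multiset ℕ}
    {V : α → List ℕ}, PB n → (PB fun p : α × Bin => (l p.1).count p.2.val) →
    (PB fun p : α × Bin => (r p.1).count p.2.val) → (∀ i, PB fun x => (V x).getD i 0) →
    (Good fun x => (nd (n x) (l x) (r x) e (V x)).1) ∧
      Good fun x => (nd (n x) (l x) (r x) e (V x)).2 := by
  have lift : ∀ {α : Type} [Enc α] {l : α → Multiset ℕ},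
      (PB fun p : α × Bin => (l p.1).count p.2.val) →
      PB fun p : (α × Bin) × Bin => (l p.1.1).count p.2.val := fun h =>
    h.comp (g := fun p : (_ × Bin) × Bin => (p.1.1, p.2)) (by fun_prop)
  induction e with
  | num c => intro α _ n l r V _ _ _ _; exact ⟨Good.const c, Good.const 1⟩
  | var i => intro α _ n l r V _ _ _ hV; exact ⟨Good.ofPB (hV i), Good.const 1⟩
  | multL i =>
    intro α _ n l r V _ hl _ hV
    exact ⟨Good.ofPB (PB.app (f := fun x t => (l x).count t) hl PT.id (hV i)), Good.const 1⟩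
  | multR i =>
    intro α _ n l r V _ _ hr hV
    exact ⟨Good.ofPB (PB.app (f := fun x t => (r x).count t) hr PT.id (hV i)), Good.const 1⟩
  | add a b ha hb =>
    intro α _ n l r V hn hl hr hV
    obtain ⟨a1, a2⟩ := ha hn hl hr hV
    obtain ⟨b1, b2⟩ := hb hn hl hr hV
    exact ⟨(a1.mul b2).add (b1.mul a2), a2.mul b2⟩
  | mul a b ha hb =>
    intro α _ n l r V hn hl hr hV
    obtain ⟨a1, a2⟩ := ha hn hl hr hV
    obtain ⟨b1, b2⟩ := hb hn hl hr hV
    exact ⟨a1.mul b1, a2.mul b2⟩
  | inv a ha =>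
    intro α _ n l r V hn hl hr hV
    obtain ⟨a1, a2⟩ := ha hn hl hr hV
    have h := (a1.zero H).of_eq (g := fun x => decide ((nd (n x) (l x) (r x) a (V x)).1 = 0))
      fun _ => by congr
    exact ⟨Good.ite h (Good.const 0) a2, Good.ite h (Good.const 1) a1⟩
  | floor a ha =>
    intro α _ n l r V hn hl hr hV
    obtain ⟨a1, a2⟩ := ha hn hl hr hV
    exact ⟨(a1.mul a2).ediv H (a2.mul a2) fun x =>
      mul_self_pos.2 (Int.cast_ne_zero.1 (nd_spec _ _ _ a _).1), Good.const 1⟩
  | sum a ha =>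
    intro α _ n l r V hn hl hr hV
    obtain ⟨a1, a2⟩ := ha (α := α × Bin) (n := fun p => n p.1) (l := fun p => l p.1)
      (r := fun p => r p.1) (V := fun p => p.2.val :: V p.1) (hn.comp PT.fst') (lift hl) (lift hr)
      (pb_cons_env hV)
    have hs : PB fun x => n x + 1 := by fun_prop
    refine ⟨Good.sum H hs (a1.mul (Good.prod H (hs.comp PT.fst') (Good.ite
      (PB.eq (by fun_prop) (by fun_prop)) (Good.const 1) ?_))), Good.prod H hs a2⟩
    exact a2.comp (g := fun p : (α × Bin) × Bin => (p.1.1, p.2)) (by fun_prop)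
  | prod a ha =>
    intro α _ n l r V hn hl hr hV
    obtain ⟨a1, a2⟩ := ha (α := α × Bin) (n := fun p => n p.1) (l := fun p => l p.1)
      (r := fun p => r p.1) (V := fun p => p.2.val :: V p.1) (hn.comp PT.fst') (lift hl) (lift hr)
      (pb_cons_env hV)
    have hs : PB fun x => n x + 1 := by fun_prop
    exact ⟨Good.prod H hs a1, Good.prod H hs a2⟩

/-- The zero test of an expression on implicit inputs. -/
theorem pt_zero (H : Col) (e : Form) {n : α → ℕ} {l r : α → Multiset ℕ} (hn : PB n)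
    (hl : PB fun p : α × Bin => (l p.1).count p.2.val)
    (hr : PB fun p : α × Bin => (r p.1).count p.2.val) :
    PT fun x => decide (e.val (n x) (l x) (r x) [] = 0) := by
  refine ((good_nd H e (V := fun _ => []) hn hl hr fun i =>
    (PB.const 0).of_eq fun _ => by simp).1.zero H).of_eq fun x => ?_
  obtain ⟨h1, h2⟩ := nd_spec (n x) (l x) (r x) e []
  rw [decide_eq_decide, h2, div_eq_zero_iff, or_iff_left h1, Int.cast_eq_zero]

end Pool.Agent.Work.MP_84e666_co.U
end

section
/-! The pair of partitions of a system whose equations are given by their numbers. -/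

namespace Pool.Agent.Work.MP_84e666_co.U

open Finset Pool.Agent.Lib.Poly Pack

variable {α : Type} [Enc α]

/-- Sums over the list are easy. -/
def IL (L : α → List ℕ) : Prop :=
  ∀ φ : α → ℕ → ℕ, (PB fun p : α × Bin => φ p.1 p.2.val) → PB fun x => ((L x).map (φ x)).sum

theorem IL.nil : IL fun _ : α => [] := fun _ _ => PB.const 0

theorem IL.cons {f : α → ℕ} {L : α → List ℕ} (hf : PB f) (hL : IL L) : IL fun x => f x :: L x :=
  fun φ h => (PB.app h PT.id hf).add (hL φ h)

theorem IL.append {L L' : α → List ℕ} (hL : IL L) (hL' : IL L') : IL fun x => L x ++ L' x :=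
  fun φ h => ((hL φ h).add (hL' φ h)).of_eq fun _ => by simp

theorem IL.const (L : List ℕ) : IL fun _ : α => L := by
  induction L with
  | nil => exact IL.nil
  | cons a L ih => exact IL.cons (PB.const a) ih

theorem IL.flatMap (H : Col) {s : α → ℕ} {G : α → ℕ → List ℕ} (hs : PB s)
    (hG : IL fun p : α × Bin => G p.1 p.2.val) : IL fun x => (List.range (s x)).flatMap (G x) := by
  intro φ h
  refine (H.sum (f := fun x i => ((G x i).map (φ x)).sum) hs (hG (fun p => φ p.1)
    (h.comp (g := fun p : (α × Bin) × Bin => (p.1.1, p.2)) (by fun_prop)))).of_eq fun x => ?_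
  dsimp only
  induction s x with
  | zero => rfl
  | succ n ih => rw [sum_range_succ, ih, List.range_succ]; simp

theorem IL.map (H : Col) {s : α → ℕ} {f : α → ℕ → ℕ} (hs : PB s)
    (hf : PB fun p : α × Bin => f p.1 p.2.val) : IL fun x => (List.range (s x)).map (f x) := by
  simp only [List.map_eq_flatMap]
  exact IL.flatMap H hs (IL.cons hf IL.nil)

theorem IL.sum {L : α → List ℕ} (hL : IL L) : PB fun x => (L x).sum :=
  (hL (fun _ y => y) (by fun_prop)).of_eq fun _ => by simp

theorem IL.count {L : α → List ℕ} (hL : IL fun p : α × Bin => L p.1) :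
    PB fun p : α × Bin => (L p.1 : Multiset ℕ).count p.2.val := by
  refine (hL (fun p y => if y = p.2.val then 1 else 0)
    (PB.ite (PB.eq (by fun_prop) (by fun_prop)) (PB.const 1) (PB.const 0))).of_eq fun p => ?_
  rw [Multiset.coe_count]
  dsimp only
  induction L p.1 with
  | nil => rfl
  | cons a l ih => rw [List.map_cons, List.sum_cons, ih, List.count_cons, add_comm]; simp

attribute [local fun_prop] PB.lt PB.eq PB.mk

@[fun_prop] theorem pb_szL {f g h k : α → ℕ} (hf : PB f) (hg : PB g) (hh : PB h) (hk : PB k) :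
    PB fun x => szL (f x) (g x) (h x) (k x) := by
  unfold szL
  fun_prop

@[fun_prop] theorem pb_szS {f g h k : α → ℕ} (hf : PB f) (hg : PB g) (hh : PB h) (hk : PB k) :
    PB fun x => szS (f x) (g x) (h x) (k x) := by
  unfold szS
  fun_prop

@[fun_prop] theorem pb_bb {f g : α → ℕ} (hf : PB f) (hg : PB g) :
    PB fun x => bb (f x) (g x) := by
  unfold bb
  fun_prop

section ab

variable {n m M : α → ℕ} {a : α → ℕ → ℕ → Bool → ℕ} {b : α → ℕ → ℕ}

theorem il_lam0 (H : Col) (hn : PB n) (hm : PB m) (hM : PB M)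
    (ha : ∀ β, PB fun p : (α × Bin) × Bin => a p.1.1 p.1.2.val p.2.val β) :
    IL fun x => lam0 (n x) (m x) (a x) (M x) := by
  have h1 := ha true
  have h2 := ha false
  unfold lam0 sizes
  refine (IL.const _).append (IL.append (IL.flatMap H hm (IL.flatMap H (by fun_prop)
    (IL.cons (pb_szL ?_ ?_ ?_ (h1.add (PB.const 1))) (IL.cons ?_
      (IL.cons (pb_szL ?_ ?_ ?_ (h2.add (PB.const 1))) (IL.cons ?_ IL.nil))))))
    (IL.flatMap H hn (IL.cons ?_ (IL.cons ?_ IL.nil)))) <;> fun_prop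

theorem il_lamL (H : Col) (hn : PB n) (hm : PB m) (hM : PB M)
    (ha : ∀ β, PB fun p : (α × Bin) × Bin => a p.1.1 p.1.2.val p.2.val β) :
    IL fun x => lamL (n x) (m x) (a x) (M x) := by
  have h := il_lam0 H hn hm hM ha
  unfold lamL mark
  refine h.append (IL.append (IL.flatMap H hn (IL.cons (PB.mul (PB.add (h.sum.comp PT.fst') ?_) ?_)
    (IL.cons (PB.mul (PB.add (h.sum.comp PT.fst') ?_) ?_) IL.nil)))
    (IL.map H hm (PB.mul (PB.add (h.sum.comp PT.fst') ?_) ?_))) <;> fun_prop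

theorem il_rhoL (H : Col) (hn : PB n) (hm : PB m) (hM : PB M)
    (ha : ∀ β, PB fun p : (α × Bin) × Bin => a p.1.1 p.1.2.val p.2.val β)
    (hb : PB fun p : α × Bin => b p.1 p.2.val) :
    IL fun x => rhoL (n x) (m x) (a x) (b x) (M x) := by
  have h := (il_lam0 H hn hm hM ha).sum
  unfold rhoL mark tL tE
  refine (IL.const _).append (IL.append (IL.flatMap H hn (IL.cons
    (PB.add (PB.mul (PB.add (h.comp PT.fst') ?_) ?_) (PB.add (IL.map H ?_ ?_).sum ?_)) (IL.cons
    (PB.add (PB.mul (PB.add (h.comp PT.fst') ?_) ?_) (PB.add (IL.map H ?_ ?_).sum ?_)) IL.nil)))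
    (IL.map H hm (PB.add (PB.mul (PB.add (h.comp PT.fst') ?_) ?_) (PB.add (IL.map H ?_ ?_).sum
      (PB.mul ?_ (PB.add hb ?_)))))) <;> fun_prop

end ab

instance : Inhabited Bin := ⟨⟨0⟩⟩

/-- The variables. -/
def bsN (n : ℕ) : List Bin := (List.range n).map Bin.mk

theorem il_sys (H : Col) {n m : α → ℕ} {E : α → ℕ → List (Bin × Bool) × ℕ} (hn : PB n) (hm : PB m)
    (hE : PT fun p : α × Bin => E p.1 p.2.val) :
    (IL fun x => lamS (bsN (n x)) ((List.range (m x)).map (E x))) ∧
      IL fun x => rhoS (bsN (n x)) ((List.range (m x)).map (E x)) := by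
  have h1 : PT fun p : α × Bin => ((List.range (m p.1)).map (E p.1)).getD p.2.val ([], 0) := by
    refine (PT.ite (p := fun p : α × Bin => p.2.val < m p.1) (by fun_prop) hE
      (PT.const ([], 0))).of_eq fun p => ?_
    by_cases h : p.2.val < m p.1 <;> simp [List.getD_eq_getElem?_getD, h]
  have h2 : PT fun p : α × Bin => (bsN (n p.1)).getD p.2.val default := by
    refine (PT.ite (p := fun p : α × Bin => p.2.val < n p.1) (by fun_prop) PT.snd'
      (PT.const default)).of_eq fun p => ?_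
    by_cases h : p.2.val < n p.1 <;> simp [bsN, List.getD_eq_getElem?_getD, h]
  have h3 : ∀ β, PB fun p : (α × Bin) × Bin =>
      a0 (bsN (n p.1.1)) ((List.range (m p.1.1)).map (E p.1.1)) p.1.2.val p.2.val β := fun β =>
    PB.ofPT (PT.countP (PT.deq PT.snd' (PT.mk (h2.comp
      (g := fun q : ((α × Bin) × Bin) × Bin × Bool => (q.1.1.1, q.1.2)) (by fun_prop)) (PT.const β)))
      (h1.comp PT.fst').fst)
  have h4 : PB fun x => tot ((List.range (m x)).map (E x)) :=
    (IL.map H (f := fun x i => (E x i).1.length) hm (PB.ofPT hE.fst.length)).sum.of_eq fun x => by simp [tot, Function.comp_def]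
  have h5 : PB fun x => ((List.range (m x)).map (E x)).length := hm.of_eq fun x => by simp
  have h6 : PB fun x => (bsN (n x)).length := hn.of_eq fun x => by simp [bsN]
  have ha : ∀ β, PB fun p : (α × Bin) × Bin =>
      aS (bsN (n p.1.1)) ((List.range (m p.1.1)).map (E p.1.1)) p.1.2.val p.2.val β := fun β => by
    unfold aS
    refine PB.ite (PB.lt (by fun_prop) (h5.comp PT.fst'.fst)) (h3 β) (PB.sub (h4.comp PT.fst'.fst)
      (IL.sum (IL.map H (f := fun (p : (α × Bin) × Bin) e => a0 (bsN (n p.1.1))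
        ((List.range (m p.1.1)).map (E p.1.1)) e p.2.val β) (h5.comp PT.fst'.fst) ?_)))
    exact (h3 β).comp (g := fun q : ((α × Bin) × Bin) × Bin => ((q.1.1.1, q.2), q.1.2))
      (by fun_prop)
  have hb : PB fun p : α × Bin =>
      bS (bsN (n p.1)) ((List.range (m p.1)).map (E p.1)) p.2.val := by
    unfold bS
    refine PB.ite (PB.lt (by fun_prop) (h5.comp PT.fst')) (PB.ofPT h1.snd)
      (PB.sub ((h6.mul h4).comp PT.fst') (IL.sum (IL.map H (f := fun (p : α × Bin) e =>
        (((List.range (m p.1)).map (E p.1)).getD e ([], 0)).2) (h5.comp PT.fst') ?_)))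
    exact (PB.ofPT h1.snd).comp (g := fun q : (α × Bin) × Bin => (q.1.1, q.2)) (by fun_prop)
  unfold lamS rhoS
  exact ⟨il_lamL H (a := fun x => aS (bsN (n x)) ((List.range (m x)).map (E x))) h6
      (h5.add (PB.const 1)) ((h4.add h5).add (PB.const 1)) ha,
    il_rhoL H (a := fun x => aS (bsN (n x)) ((List.range (m x)).map (E x)))
      (b := fun x => bS (bsN (n x)) ((List.range (m x)).map (E x))) h6
      (h5.add (PB.const 1)) ((h4.add h5).add (PB.const 1)) ha hb⟩

/-- The test made by an expression on a pair with one more part. -/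
def tst (e : Form) (N : ℕ) (L R : List ℕ) : Bool :=
  decide (e.val (L.sum + N + 1 + L.sum) ((L.sum + N + 1) ::ₘ L) ((L.sum + N + 1) ::ₘ R) [] = 0)

theorem pt_zero_sys (H : Col) (e : Form) (N : ℕ) {n m : α → ℕ}
    {E : α → ℕ → List (Bin × Bool) × ℕ} (hn : PB n) (hm : PB m)
    (hE : PT fun p : α × Bin => E p.1 p.2.val) :
    PT fun x => tst e N (lamS (bsN (n x)) ((List.range (m x)).map (E x)))
      (rhoS (bsN (n x)) ((List.range (m x)).map (E x))) := by
  have h := il_sys H (α := α × Bin) (n := fun p => n p.1) (m := fun p => m p.1)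
    (E := fun p => E p.1) (hn.comp PT.fst') (hm.comp PT.fst')
    (hE.comp (g := fun q : (α × Bin) × Bin => (q.1.1, q.2)) (by fun_prop))
  have h1 := (il_sys H hn hm hE).1.sum
  obtain ⟨L, R, e1, e2⟩ : ∃ L R : α → List ℕ,
      (∀ x, lamS (bsN (n x)) ((List.range (m x)).map (E x)) = L x) ∧
      ∀ x, rhoS (bsN (n x)) ((List.range (m x)).map (E x)) = R x := ⟨_, _, fun _ => rfl, fun _ => rfl⟩
  simp only [e1, e2] at h h1 ⊢
  have h2 : PB fun x => (L x).sum + N + 1 := (h1.add (PB.const N)).add (PB.const 1)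
  exact pt_zero H e (l := fun x => (((L x).sum + N + 1) :: L x : List ℕ))
    (r := fun x => (((L x).sum + N + 1) :: R x : List ℕ)) (h2.add h1)
    (IL.count (L := fun x => ((L x).sum + N + 1) :: L x) (IL.cons (h2.comp PT.fst') h.1))
    (IL.count (L := fun x => ((L x).sum + N + 1) :: R x) (IL.cons (h2.comp PT.fst') h.2))

end Pool.Agent.Work.MP_84e666_co.U
end

section
/-! A cellular computation on numbers as a numbered system of equations. -/

namespace Pool.Agent.Work.MP_84e666_co.U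

open Finset Pool.Agent.Lib.Poly Pack

/-- A digit. -/
def dig (g τ j : ℕ) : ℕ :=
  (if j = 0 then τ else if j = 1 then τ / g else if j = 2 then τ / g / g else τ / g / g / g) % g

/-- Four digits as one number. -/
def tup (g : ℕ) (x : ℕ → ℕ) : ℕ := x 0 + g * (x 1 + g * (x 2 + g * x 3))

/-- The cells read, in a strip of width `W`. -/
def posW (W i j : ℕ) : ℕ :=
  if j = 0 then 0 else if j = 1 then i - 1 else if j = 2 then i else if i + 1 < W then i + 1 else i

/-- The local rule. -/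
def nxt (δ : List ℕ) (z : Bool) (τ : ℕ) : ℕ := δ.getD (2 * τ + z.toNat) 0

variable (g : ℕ) (δ : List ℕ) (acc : List Bool) (ini : ℕ → ℕ) (W : ℕ)

/-- The computation. -/
def run : ℕ → ℕ → ℕ
  | 0, i => ini i
  | t + 1, i => nxt δ (decide (i = 0)) (tup g fun j => run t (posW W i j))

/-- The number of a variable. -/
def vr (t i τ : ℕ) : Bin := ⟨2 + ((t * W + i) * g ^ 4 + τ)⟩

/-- The positive literals at a node that pass a test. -/
def sel (t i : ℕ) (p : ℕ → Bool) : List (Bin × Bool) :=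
  ((List.range (g ^ 4)).filter p).map fun τ => (vr g W t i τ, true)

/-- Literals whose sum tells whether a cell has a given value. -/
def prev (t i s : ℕ) : List (Bin × Bool) :=
  if t = 0 then [] else sel g W (t - 1) i fun τ => decide (nxt δ (decide (i = 0)) τ = s)

/-- One equation. -/
def eqn (t i j s : ℕ) : List (Bin × Bool) × ℕ :=
  (sel g W t i (fun τ => decide (dig g τ j = s)) ++
    (prev g δ W t (posW W i j) s).map (fun l => (l.1, !l.2)),
    (prev g δ W t (posW W i j) s).length + if t = 0 ∧ ini (posW W i j) = s then 1 else 0)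

/-- The equation for the output. -/
def outEq (T : ℕ) : List (Bin × Bool) × ℕ :=
  ((⟨0⟩, true) :: (⟨1⟩, false) :: sel g W (T - 1) 0 fun τ => !acc.getD (nxt δ true τ) false, 2)

/-- The equation with a given number. -/
def eqAt (T e : ℕ) : List (Bin × Bool) × ℕ :=
  if e = 0 then outEq g δ acc W T else
    eqn g δ ini W ((e - 1) / (4 * g) / W) ((e - 1) / (4 * g) % W) ((e - 1) % (4 * g) / g)
      ((e - 1) % (4 * g) % g)

theorem forall_grid {A B : ℕ} (Q : ℕ → ℕ → Prop) :
    (∀ u < A * B, Q (u / B) (u % B)) ↔ ∀ a < A, ∀ b < B, Q a b := by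
  refine ⟨fun h a ha b hb => ?_, fun h u hu => ?_⟩
  · have := h (a * B + b) (by nlinarith)
    rwa [mul_comm, Nat.mul_add_div (by omega), Nat.mul_add_mod, Nat.div_eq_of_lt hb,
      Nat.mod_eq_of_lt hb, add_zero] at this
  · have hB : 0 < B := Nat.pos_of_ne_zero fun h => by simp [h] at hu
    exact h _ ((Nat.div_lt_iff_lt_mul hB).2 hu) _ (Nat.mod_lt _ hB)

theorem forall_eqAt (T : ℕ) (P : List (Bin × Bool) × ℕ → Prop) :
    (∀ q ∈ (List.range (T * W * (4 * g) + 1)).map (eqAt g δ acc ini W T), P q) ↔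
      P (outEq g δ acc W T) ∧ ∀ t < T, ∀ i < W, ∀ j < 4, ∀ s < g, P (eqn g δ ini W t i j s) := by
  rw [List.range_succ_eq_map, List.map_cons, List.forall_mem_cons, List.map_map]
  refine and_congr Iff.rfl ?_
  rw [← forall_grid fun t i => ∀ j < 4, ∀ s < g, P (eqn g δ ini W t i j s)]
  simp only [← forall_grid fun j s => P (eqn g δ ini W _ _ j s)]
  rw [← forall_grid fun c js => P (eqn g δ ini W (c / W) (c % W) (js / g) (js % g))]
  simp [eqAt]

variable {g δ acc ini W}

theorem tup_dig {τ : ℕ} (h : τ < g ^ 4) : tup g (dig g τ) = τ := by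
  have hg : 0 < g := Nat.pos_of_ne_zero fun h0 => by simp [h0] at h
  have h1 : τ / g / g / g < g := by
    rw [Nat.div_lt_iff_lt_mul hg, Nat.div_lt_iff_lt_mul hg, Nat.div_lt_iff_lt_mul hg]
    exact h.trans_eq (by ring)
  simp [tup, dig, Nat.mod_eq_of_lt h1, Nat.mod_add_div]

theorem dig_tup {x : ℕ → ℕ} (h : ∀ j, x j < g) {j : ℕ} (hj : j < 4) : dig g (tup g x) j = x j := by
  have hg : 0 < g := (Nat.zero_le _).trans_lt (h 0)
  have e : ∀ j y, (x j + g * y) / g = y := fun j y => by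
    rw [Nat.add_mul_div_left _ _ hg, Nat.div_eq_of_lt (h j), zero_add]
  interval_cases j <;> simp [dig, tup, e, Nat.mod_eq_of_lt (h _)]

theorem tup_lt {x : ℕ → ℕ} (h : ∀ j, x j < g) : tup g x < g ^ 4 := by
  have e : ∀ j y B, y < B → x j + g * y < g * B := fun j y B hy => by
    have := h j
    nlinarith
  exact (e 0 _ _ (e 1 _ _ (e 2 _ _ (h 3)))).trans_eq (by ring)

theorem cnt_congr {s : ℕ} {φ ψ : ℕ → Bool} (h : ∀ i < s, φ i = ψ i) : cnt s φ = cnt s ψ :=
  sum_congr rfl fun i hi => by rw [h i (mem_range.1 hi)]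

theorem one_hot (hg : 0 < g) (y : ℕ → Bool) {τ₀ : ℕ} (h0 : τ₀ < g ^ 4) :
    (∀ j < 4, ∀ s < g, (cnt (g ^ 4) fun τ => y τ && decide (dig g τ j = s)) =
      if dig g τ₀ j = s then 1 else 0) ↔ ∀ τ < g ^ 4, y τ = decide (τ₀ = τ) := by
  constructor
  · intro h
    have h1 : ∀ τ < g ^ 4, y τ = true → τ₀ = τ := fun τ hτ hy => by
      have h2 : ∀ j < 4, dig g τ₀ j = dig g τ j := fun j hj => by
        by_contra hne
        have := h j hj (dig g τ j) (Nat.mod_lt _ hg)
        rw [if_neg hne, cnt_eq_zero] at this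
        simpa [hy] using this τ hτ
      rw [← tup_dig h0, ← tup_dig hτ]
      simp only [tup, h2 0 (by omega), h2 1 (by omega), h2 2 (by omega), h2 3 (by omega)]
    have h2 := h 0 (by omega) (dig g τ₀ 0) (Nat.mod_lt _ hg)
    rw [if_pos rfl] at h2
    have h3 := mt cnt_eq_zero.2 (h2.trans_ne one_ne_zero)
    push Not at h3
    obtain ⟨τ, hτ, h3⟩ := h3
    have h4 : y τ = true := by
      cases hy : y τ
      · simp [hy] at h3
      · rfl
    intro τ' hτ'
    rw [Bool.eq_iff_iff, decide_eq_true_eq]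
    exact ⟨h1 τ' hτ', fun e => by rw [← e, h1 τ hτ h4, h4]⟩
  · intro h j _ s _
    rw [cnt_congr fun τ hτ => by rw [h τ hτ], cnt_one h0]
    simp

/-- The number of true literals. -/
def tr (A : Bin → Bool) (q : List (Bin × Bool)) : ℕ := q.countP fun l => decide (A l.1 = l.2)

theorem tr_sel (A : Bin → Bool) (t i : ℕ) (p : ℕ → Bool) :
    tr A (sel g W t i p) = cnt (g ^ 4) fun τ => A (vr g W t i τ) && p τ := by
  rw [tr, sel, List.countP_map, List.countP_filter]
  induction g ^ 4 with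
  | zero => rfl
  | succ n ih =>
    rw [List.range_succ, List.countP_append, ih, cnt, cnt, sum_range_succ]
    simp [List.countP_cons]

theorem tr_neg (A : Bin → Bool) (q : List (Bin × Bool)) :
    tr A (q.map fun l => (l.1, !l.2)) + tr A q = q.length := by
  induction q with
  | nil => rfl
  | cons l q ih =>
    simp only [tr, List.map_cons, List.countP_cons, List.length_cons, decide_eq_true_eq] at ih ⊢
    have : ((if A l.1 = !l.2 then 1 else 0) + if A l.1 = l.2 then 1 else 0) = 1 := by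
      cases A l.1 <;> cases l.2 <;> rfl
    omega

theorem posW_lt {i : ℕ} (h : i < W) (j : ℕ) : posW W i j < W := by
  unfold posW
  split_ifs <;> omega

variable (g δ ini W) in
/-- The assignment agrees with the computation before time `t`. -/
def Agr (A : Bin → Bool) (t : ℕ) : Prop :=
  ∀ t' < t, ∀ i < W, ∀ τ < g ^ 4, A (vr g W t' i τ) =
    decide ((tup g fun j => run g δ ini W t' (posW W i j)) = τ)

section solve

variable (hδ : ∀ u, δ.getD u 0 < g) (hi : ∀ i, ini i < g)
include hδ hi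

theorem run_lt (t i : ℕ) : run g δ ini W t i < g := by
  cases t with
  | zero => exact hi i
  | succ t => exact hδ _

theorem tr_last {A : Bin → Bool} {t : ℕ} (h : Agr g δ ini W A (t + 1)) {i : ℕ} (hW : i < W)
    (p : ℕ → Bool) : tr A (sel g W t i fun τ => p (nxt δ (decide (i = 0)) τ)) =
      if p (run g δ ini W (t + 1) i) = true then 1 else 0 := by
  rw [tr_sel, cnt_congr fun τ hτ => by rw [h t t.lt_succ_self i hW τ hτ],
    cnt_one (tup_lt fun _ => run_lt hδ hi _ _), run]

theorem tr_prev {A : Bin → Bool} {t : ℕ} (h : Agr g δ ini W A t) {i : ℕ} (hW : i < W) (s : ℕ) :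
    (tr A (prev g δ W t i s) + if t = 0 ∧ ini i = s then 1 else 0) =
      if run g δ ini W t i = s then 1 else 0 := by
  cases t with
  | zero => by_cases h : ini i = s <;> simp [prev, tr, run, h]
  | succ t =>
    rw [prev, if_neg t.succ_ne_zero, Nat.add_sub_cancel,
      tr_last hδ hi h hW fun x => decide (x = s)]
    simp

theorem solves_iff (A : Bin → Bool) (T : ℕ) :
    Solves ((List.range (T * W * (4 * g) + 1)).map (eqAt g δ acc ini W T)) A ↔
      tr A (outEq g δ acc W T).1 = 2 ∧ Agr g δ ini W A T := by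
  have hg : 0 < g := (Nat.zero_le _).trans_lt (hi 0)
  have step : ∀ t i, Agr g δ ini W A t → i < W →
      ((∀ j < 4, ∀ s < g, tr A (eqn g δ ini W t i j s).1 = (eqn g δ ini W t i j s).2) ↔
      ∀ τ < g ^ 4, A (vr g W t i τ) =
        decide ((tup g fun j => run g δ ini W t (posW W i j)) = τ)) := by
    intro t i h hW
    rw [← one_hot hg (fun τ => A (vr g W t i τ)) (tup_lt fun _ => run_lt hδ hi _ _)]
    refine forall₄_congr fun j hj s _ => ?_
    have := tr_neg A (prev g δ W t (posW W i j) s)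
    rw [dig_tup (fun _ => run_lt hδ hi _ _) hj, ← tr_prev hδ hi h (posW_lt hW j), ← tr_sel]
    simp only [eqn, tr, List.countP_append] at *
    omega
  refine (forall_eqAt g δ acc ini W T fun q => tr A q.1 = q.2).trans ?_
  refine and_congr Iff.rfl ⟨fun h2 => ?_, fun h1 t ht i hW =>
    (step t i (fun t' h => h1 t' (h.trans ht)) hW).2 (h1 t ht i hW)⟩
  have : ∀ t ≤ T, Agr g δ ini W A t := fun t => by
    induction t with
    | zero => intro _ t' h; omega
    | succ t ih =>
      intro ht t' h i hW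
      rcases Nat.lt_succ_iff_lt_or_eq.1 h with h | rfl
      · exact ih (by omega) t' h i hW
      · exact (step t' i (ih (by omega)) hW).1 (h2 t' ht i hW)
  exact this T le_rfl

theorem gap_run (hW : 0 < W) (T : ℕ) : ∃ (N : ℕ) (l r : N.Partition),
    l.parts = lamS (bsN (2 + (T + 1) * W * g ^ 4))
      ((List.range ((T + 1) * W * (4 * g) + 1)).map (eqAt g δ acc ini W (T + 1))) ∧
    r.parts = rhoS (bsN (2 + (T + 1) * W * g ^ 4))
      ((List.range ((T + 1) * W * (4 * g) + 1)).map (eqAt g δ acc ini W (T + 1))) ∧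
    Refines l.parts r.parts ∧ ∀ μ, IsMobius μ →
      (μ l r = 0 ↔ acc.getD (run g δ ini W (T + 1) 0) false = false) := by
  have hg : 0 < g ^ 4 := pow_pos ((Nat.zero_le _).trans_lt (hi 0)) _
  have mem : ∀ v : Bin, v ∈ bsN (2 + (T + 1) * W * g ^ 4) ↔ v.val < 2 + (T + 1) * W * g ^ 4 :=
    fun v => by
      simp only [bsN, List.mem_map, List.mem_range]
      exact ⟨fun ⟨_, h, e⟩ => e ▸ h, fun h => ⟨_, h, rfl⟩⟩
  have hsel : ∀ t < T + 1, ∀ i < W, ∀ p, ∀ l ∈ sel g W t i p,
      l.1 ∈ bsN (2 + (T + 1) * W * g ^ 4) := by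
    intro t ht i h p l hl
    obtain ⟨τ, hτ, rfl⟩ := List.mem_map.1 hl
    have h1 := List.mem_range.1 (List.mem_filter.1 hτ).1
    have h2 : t * W + i + 1 ≤ (T + 1) * W := by nlinarith
    have h3 := Nat.mul_le_mul_right (g ^ 4) h2
    rw [mem, vr]
    nlinarith
  have h0 : (bsN (2 + (T + 1) * W * g ^ 4)).getD 0 default = ⟨0⟩ := by
    simp [bsN, List.getD_eq_getElem?_getD]
  let rej : Bool := !acc.getD (run g δ ini W (T + 1) 0) false
  have out : ∀ A, Agr g δ ini W A (T + 1) → tr A (outEq g δ acc W (T + 1)).1 =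
      rej.toNat + (!A ⟨1⟩).toNat + (A ⟨0⟩).toNat := fun A h => by
    have := tr_last hδ hi h hW fun x => !acc.getD x false
    simp only [decide_true, tr] at this
    simp only [outEq, tr, List.countP_cons, Nat.add_sub_cancel, this, rej]
    cases A ⟨0⟩ <;> cases A ⟨1⟩ <;> cases acc.getD (run g δ ini W (T + 1) 0) false <;> rfl
  let F : Bool → Bin → Bool := fun w v => if v.val = 0 then w else if v.val = 1 then w && rej
    else decide ((tup g fun j => run g δ ini W ((v.val - 2) / g ^ 4 / W)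
      (posW W ((v.val - 2) / g ^ 4 % W) j)) = (v.val - 2) % g ^ 4)
  have hF : ∀ w, Agr g δ ini W (F w) (T + 1) := fun w t _ i h τ hτ => by
    have e1 : ((t * W + i) * g ^ 4 + τ) / g ^ 4 = t * W + i := by
      rw [mul_comm, Nat.mul_add_div hg, Nat.div_eq_of_lt hτ, add_zero]
    have e2 : ((t * W + i) * g ^ 4 + τ) % g ^ 4 = τ := by
      rw [mul_comm, Nat.mul_add_mod, Nat.mod_eq_of_lt hτ]
    have e3 : (t * W + i) / W = t := by
      rw [mul_comm, Nat.mul_add_div hW, Nat.div_eq_of_lt h, add_zero]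
    have e4 : (t * W + i) % W = i := by rw [mul_comm, Nat.mul_add_mod, Nat.mod_eq_of_lt h]
    simp only [F, vr]
    rw [if_neg (by omega), if_neg (by omega), Nat.add_sub_cancel_left, e1, e2, e3, e4]
  obtain ⟨N, l, r, a1, a2, a3, a4⟩ := gap_sys (bs := bsN (2 + (T + 1) * W * g ^ 4))
    (eqs := (List.range ((T + 1) * W * (4 * g) + 1)).map (eqAt g δ acc ini W (T + 1)))
    (List.nodup_range.map fun _ _ h => congrArg Bin.val h)
    (List.ne_nil_of_mem ((mem ⟨0⟩).2 (by simp)))
    ((forall_eqAt g δ acc ini W (T + 1) fun q => ∀ l ∈ q.1, l.1 ∈ _).2 ⟨by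
      simp only [outEq, List.forall_mem_cons]
      exact ⟨(mem _).2 (by simp), (mem _).2 (by dsimp only; omega), hsel _ (by omega) _ hW _⟩,
      fun t ht i h j _ s _ => by
        simp only [eqn, List.forall_mem_append, List.forall_mem_map, prev]
        refine ⟨hsel t ht i h _, ?_⟩
        split_ifs
        · simp
        · exact hsel _ (by omega) _ (posW_lt h j) _⟩)
    (fun s => univ.filter fun w : Bool => w = s ∧ (w || rej) = true) F
    (fun s w h => by
      obtain ⟨rfl, h⟩ := (mem_filter.1 h).2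
      rw [h0, solves_iff hδ hi, out _ (hF w)]
      refine ⟨rfl, ?_, hF w⟩
      simp only [F]
      revert h
      cases w <;> cases rej <;> simp)
    (fun w w' h => h ⟨0⟩ ((mem _).2 (by simp)))
    (fun A h => by
      rw [solves_iff hδ hi] at h
      have h1 := h.1
      rw [out A h.2] at h1
      rw [h0]
      refine ⟨A ⟨0⟩, mem_filter.2 ⟨mem_univ _, rfl, ?_⟩, fun ⟨v⟩ hv => ?_⟩
      · revert h1
        cases A ⟨0⟩ <;> cases A ⟨1⟩ <;> cases rej <;> simp
      · rw [mem] at hv
        simp only [F]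
        split_ifs with c1 c2
        · rw [c1]
        · rw [c2]
          revert h1
          cases A ⟨0⟩ <;> cases A ⟨1⟩ <;> cases rej <;> simp
        · have h2 : (v - 2) / g ^ 4 < (T + 1) * W := (Nat.div_lt_iff_lt_mul hg).2 (by
            dsimp only at hv; omega)
          rw [← h.2 _ ((Nat.div_lt_iff_lt_mul hW).2 h2) _ (Nat.mod_lt _ hW) _ (Nat.mod_lt _ hg), vr,
            Nat.div_add_mod', Nat.div_add_mod']
          congr 2
          omega)
    ⟨true, by simp⟩
  refine ⟨N, l, r, a1, a2, a3, fun μ hμ => ?_⟩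
  have hc : 0 < ((numL (bsN (2 + (T + 1) * W * g ^ 4)).length (((List.range
      ((T + 1) * W * (4 * g) + 1)).map (eqAt g δ acc ini W (T + 1))).length + 1)).map
        Nat.factorial).prod := List.prod_pos fun k hk => by
    obtain ⟨k, -, rfl⟩ := List.mem_map.1 hk
    exact k.factorial_pos
  rw [a4 μ hμ, mul_eq_zero, or_iff_right (by exact_mod_cast hc.ne')]
  simp only [rej]
  cases acc.getD (run g δ ini W (T + 1) 0) false <;> decide

end solve

end Pool.Agent.Work.MP_84e666_co.U
end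

section
/-! The diagonal argument. -/

namespace Pool.Agent.Work.MP_84e666_co.U

open Finset Pool.Agent.Lib.Poly Pool.Agent.Lib.Cx Pool.Agent.Lib.Cx.Tab Pack

attribute [local fun_prop] PB.lt PB.eq PB.mk

section pt

variable {α : Type} [Enc α] {g W t i j s : α → ℕ} {δ : α → List ℕ}

@[fun_prop] theorem pb_dig (hg : PB g) (ht : PB t) (hj : PB j) :
    PB fun x => dig (g x) (t x) (j x) := by
  unfold dig
  fun_prop

@[fun_prop] theorem pb_posW (hW : PB W) (hi : PB i) (hj : PB j) :
    PB fun x => posW (W x) (i x) (j x) := by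
  unfold posW
  fun_prop

@[fun_prop] theorem pt_nxt {z : α → Bool} (hδ : PT δ) (hz : PT z) (ht : PT t) :
    PT fun x => nxt (δ x) (z x) (t x) := by
  unfold nxt
  fun_prop

theorem pt_sel {p : α → ℕ → Bool} (hg : PT g) (hW : PB W) (ht : PB t) (hi : PB i)
    (hp : PT fun q : α × ℕ => p q.1 q.2) : PT fun x => sel (g x) (W x) (t x) (i x) (p x) := by
  unfold sel vr
  exact PT.map (PT.mk (PB.mk (by fun_prop)) (PT.const true)) (PT.filter hp (by fun_prop))

theorem pt_prev (hg : PT g) (hδ : PT δ) (hW : PB W) (ht : PB t) (hi : PB i) (hs : PB s) :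
    PT fun x => prev (g x) (δ x) (W x) (t x) (i x) (s x) := by
  unfold prev
  exact PT.ite (PB.eq ht (PB.const 0)) (PT.const _) (pt_sel hg hW (by fun_prop) hi (PB.eq
    (PB.ofPT (pt_nxt (by fun_prop) (PB.eq (by fun_prop) (PB.const 0)) PT.snd')) (by fun_prop)))

theorem pt_eqAt {acc : α → List Bool} {ini : α → ℕ → ℕ} (hg : PT g) (hδ : PT δ) (ha : PT acc)
    (hi : PB fun p : α × Bin => ini p.1 p.2.val) (hW : PB W) (ht : PB t) (hs : PB s) :
    PT fun x => eqAt (g x) (δ x) (acc x) (ini x) (W x) (t x) (s x) := by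
  have h1 : PB fun x => (s x - 1) / (4 * g x) / W x := by fun_prop
  have h2 : PB fun x => (s x - 1) / (4 * g x) % W x := by fun_prop
  have h3 : PB fun x => (s x - 1) % (4 * g x) / g x := by fun_prop
  have h4 : PB fun x => (s x - 1) % (4 * g x) % g x := by fun_prop
  have h5 := pb_posW hW h2 h3
  have h6 := pt_prev hg hδ hW h1 h5 h4
  unfold eqAt outEq eqn
  exact PT.ite (PB.eq hs (PB.const 0))
    (PT.mk (PT.cons (PT.const _) (PT.cons (PT.const _)
      (pt_sel hg hW (by fun_prop) (PB.const 0) (by fun_prop)))) (PT.const 2))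
    (PT.mk (PT.append (pt_sel hg hW h1 h2 (PB.eq (pb_dig (by fun_prop) (by fun_prop)
      (h3.comp PT.fst')) (h4.comp PT.fst'))) (PT.map (by fun_prop) h6))
      (PT.add h6.length (PT.ite (PT.dand (PB.eq h1 (PB.const 0)) (PB.eq (PB.app hi PT.id h5) h4))
        (PT.const 1) (PT.const 0))))

end pt

/-- The first row. -/
def row0 (c : ℕ × ℕ × ℕ) (x : List Bool) (i : ℕ) : ℕ :=
  if i < x.length then (if x.getD i false = true then c.1 else c.2.1) else c.2.2

theorem run_val {Z : Type} {g : ℕ} (hg : 0 < g) (ε : Z ≃ Fin g) (F : Bool → (Fin 4 → Z) → Z)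
    (ini : ℕ → Bool → Z) (idx : ℕ → ℕ) (w : ℕ → Bool) (ini' : ℕ → ℕ)
    (h0 : ∀ i, ini' i = ε (ini i (w (idx i)))) (W t : ℕ) : ∀ i, i + t < W →
    run g ((List.range (2 * g ^ 4)).map fun u => (ε (F (decide (u % 2 = 1)) fun j =>
      ε.symm ⟨dig g (u / 2) j, Nat.mod_lt _ hg⟩)).val) ini' W t i = ε (val F ini idx w t i) := by
  induction t with
  | zero => intro i _; exact h0 i
  | succ t ih =>
    intro i hi
    have h1 : ∀ j, posW W i j = pos i j := fun j => by
      unfold posW pos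
      rw [if_pos (show i + 1 < W by omega)]
    have h2 : ∀ j, (ε (val F ini idx w t (pos i j))).val < g := fun j => Fin.is_lt _
    rw [run, funext fun j => (congrArg _ (h1 j)).trans (ih _ (by have := pos_le i j; omega)), nxt,
      Pack.val]
    have h3 := tup_lt h2
    have h4 := Bool.toNat_le (decide (i = 0))
    rw [List.getD_eq_getElem _ _ (by simp only [List.length_map, List.length_range]; omega)]
    simp only [List.getElem_map, List.getElem_range]
    congr 3
    · by_cases h : i = 0 <;> simp [h]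
    · funext j
      rw [Equiv.symm_apply_eq]
      refine Fin.ext ?_
      dsimp only
      rw [show ∀ a, (2 * a + (decide (i = 0)).toNat) / 2 = a from fun a => by omega,
        dig_tup h2 j.2]

theorem exists_ca {α : Type} [Enc α] {A : α → Bool} (hA : PT A) :
    ∃ (g : ℕ) (δ : List ℕ) (acc : List Bool) (c : ℕ × ℕ × ℕ) (t : ℕ → ℕ), Lib.Poly.IsPoly t ∧
      (∀ u, δ.getD u 0 < g) ∧ (∀ x i, row0 c x i < g) ∧ ∀ z T W, t (sz z) ≤ T → T < W →
        acc.getD (run g δ (row0 c (enc z)) W T 0) false = A z := by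
  obtain ⟨tmc⟩ := hA.tm2 enc enc A (fun a => a) (fun _ => rfl) fun _ => rfl
  obtain ⟨a, b, d, M, q0, qacc, qrej, k0, ι, c, hne', -, -, htime, -⟩ :=
    exists_NM tmc.tm tmc.outputAlphabet
  let ι' : Bool → Fin d := fun β => ι (tmc.inputAlphabet.symm β)
  let ε := Fintype.equivFin (Cell a b d)
  have hg : 0 < Fintype.card (Cell a b d) := Fintype.card_pos_iff.2 ⟨(q0, fun _ => none)⟩
  refine ⟨Fintype.card (Cell a b d), (List.range (2 * Fintype.card (Cell a b d) ^ 4)).map fun u =>
      (ε (rule M (decide (u % 2 = 1)) fun j =>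
        ε.symm ⟨dig _ (u / 2) j, Nat.mod_lt _ hg⟩)).val,
    List.ofFn fun s => decide ((ε.symm s).1 = qacc),
    (ε (cell0 q0 k0 ι' (true, true)), ε (cell0 q0 k0 ι' (true, false)),
      ε (cell0 q0 k0 ι' (false, false))), fun n => c * (tmc.time.eval n + 1),
    (Lib.Poly.IsPoly.const c).mul ((Lib.Poly.IsPoly.eval _).add (Lib.Poly.IsPoly.const 1)), fun u => ?_, fun x i => ?_,
    fun z T W hT hW => ?_⟩
  · rcases lt_or_ge u (2 * Fintype.card (Cell a b d) ^ 4) with h | h
    · rw [List.getD_eq_getElem _ _ (by simpa using h), List.getElem_map]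
      exact Fin.is_lt _
    · rwa [List.getD_eq_default _ _ (by simpa using h)]
  · unfold row0
    split_ifs <;> exact Fin.is_lt _
  obtain ⟨⟨n, hn⟩, hle⟩ := tmc.outputsFun z
  dsimp only at hle
  have h1 := htime _ (tmc.outputAlphabet.symm (A z)) n hn T
    ((Nat.mul_le_mul_left _ (Nat.add_le_add_right hle _)).trans hT)
  have e2 : start q0 k0 ι' (enc z) [] = (q0, Function.update (fun _ => []) k0
      ((List.map tmc.inputAlphabet.invFun (enc z)).map ι)) := by
    simp only [start, List.map_map, List.flatMap_nil, List.append_nil]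
    rfl
  rw [run_val hg ε (rule M) (fun i β => cell0 q0 k0 ι' (sym (enc z) ([] : List Bool).length i β))
    (widx (enc z) ([] : List Bool).length) (fun u => ([] : List Bool).getD u false) _
    (fun i => ?_) W T 0 (by omega), val_run,
    List.getD_eq_getElem _ _ (by rw [List.length_ofFn]; exact Fin.is_lt _), List.getElem_ofFn]
  · simp only [Fin.eta, Equiv.symm_apply_apply, e2, h1]
    cases A z <;> simp [hne'.symm]
  · simp only [row0, sym, List.length_nil, Nat.not_lt_zero, if_false]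
    split_ifs with h h'
    · rw [h']
    · rw [Bool.eq_false_iff.2 h']
    · rfl

theorem poly_le {t : ℕ → ℕ} (ht : Lib.Poly.IsPoly t) : ∃ k, t k ≤ 2 ^ k := by
  obtain ⟨p, hp⟩ := ht
  have : (fun k : ℕ => ((p.eval k : ℕ) : ℝ)) =o[Filter.atTop] fun k : ℕ => (2 : ℝ) ^ k := by
    clear hp
    induction p using Polynomial.induction_on' with
    | add p q h1 h2 => simpa using h1.add h2
    | monomial d a =>
      simpa using (isLittleO_pow_const_const_pow_of_one_lt (R := ℝ) d one_lt_two).const_mul_left a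
  obtain ⟨k, hk⟩ := (this.bound one_pos).exists
  refine ⟨k, ?_⟩
  rw [hp]
  simp only [Real.norm_natCast, norm_pow, Real.norm_ofNat, one_mul] at hk
  exact_mod_cast hk

/-- The description of an automaton and the logarithm of its running time. -/
abbrev Desc : Type := ℕ × List ℕ × List Bool × (ℕ × ℕ × ℕ) × ℕ

/-- The equations of the automaton run on its own description. -/
def eqsD (z : Desc) : List (List (Bin × Bool) × ℕ) :=
  (List.range ((2 ^ z.2.2.2.2 + 1) * (2 ^ z.2.2.2.2 + 2) * (4 * z.1) + 1)).map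
    (eqAt z.1 z.2.1 z.2.2.1 (row0 z.2.2.2.1 (enc z)) (2 ^ z.2.2.2.2 + 2) (2 ^ z.2.2.2.2 + 1))

/-- Their variables. -/
def bsD (z : Desc) : List Bin := bsN (2 + (2 ^ z.2.2.2.2 + 1) * (2 ^ z.2.2.2.2 + 2) * z.1 ^ 4)

theorem pt_diag (H : Col) (e : Form) (N : ℕ) :
    PT fun z : Desc => tst e N (lamS (bsD z) (eqsD z)) (rhoS (bsD z) (eqsD z)) := by
  have h2 : PB fun z : Desc => 2 ^ z.2.2.2.2 := PB.twoPow (by fun_prop)
  have h3 : PB fun p : Desc × Bin => row0 p.1.2.2.2.1 (enc p.1) p.2.val := by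
    unfold row0
    exact PB.ite (PB.lt (by fun_prop) (by fun_prop)) (PB.ite ((PB.getD
      (l := fun p : Desc × Bin => enc p.1) (by fun_prop) (PB.val PT.snd') (PT.const false)).of_eq
      fun _ => by simp) (by fun_prop) (by fun_prop)) (by fun_prop)
  have h4 : PT fun p : Desc × Bin => eqAt p.1.1 p.1.2.1 p.1.2.2.1 (row0 p.1.2.2.2.1 (enc p.1))
      (2 ^ p.1.2.2.2.2 + 2) (2 ^ p.1.2.2.2.2 + 1) p.2.val :=
    pt_eqAt (ini := fun p : Desc × Bin => row0 p.1.2.2.2.1 (enc p.1)) (by fun_prop) (by fun_prop)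
      (by fun_prop) (h3.comp (g := fun q : (Desc × Bin) × Bin => (q.1.1, q.2)) (by fun_prop))
      ((h2.add (PB.const 2)).comp PT.fst') ((h2.add (PB.const 1)).comp PT.fst') (by fun_prop)
  have h5 := (h2.add (PB.const 1)).mul (h2.add (PB.const 2))
  unfold bsD eqsD
  exact pt_zero_sys H e N (E := fun z : Desc => eqAt z.1 z.2.1 z.2.2.1 (row0 z.2.2.2.1 (enc z))
    (2 ^ z.2.2.2.2 + 2) (2 ^ z.2.2.2.2 + 1)) ((PB.const 2).add (h5.mul (by fun_prop)))
    ((h5.mul (by fun_prop)).add (PB.const 1)) h4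

theorem not_zs (e : Form) (N : ℕ) : ¬ Zs e N := by
  intro h
  obtain ⟨g, δ, acc, c, t, a1, a2, a3, a4⟩ := exists_ca (pt_diag (col_of_zs h) e N)
  obtain ⟨k, hk⟩ := poly_le (a1.comp (g := fun k =>
    2 * g + 1 + (2 * sz δ + 1 + (2 * sz acc + 1 + (2 * sz c + 1 + k)))) (by fun_prop))
  have h4 := a4 (g, δ, acc, c, k) (2 ^ k + 1) (2 ^ k + 2)
    (by simp only [sz_pair g, sz_pair δ, sz_pair acc, sz_pair c, sz_nat]; omega) (by omega)
  obtain ⟨n, l, r, b1, b2, b3, b4⟩ := gap_run (acc := acc) a2 (a3 (enc (g, δ, acc, c, k)))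
    (W := 2 ^ k + 2) (by omega) (2 ^ k)
  obtain ⟨μ, hμ⟩ := exists_mobius n
  have h5 := h n l r b3 μ hμ
  have h6 : n = (lamS (bsD (g, δ, acc, c, k)) (eqsD (g, δ, acc, c, k))).sum := by
    rw [← l.parts_sum, b1, Multiset.sum_coe]
    rfl
  rw [b4 μ hμ, h4, b1, b2, tst, decide_eq_false_iff_not, ← h6] at h5
  exact not_iff_self h5

/-- One more part. -/
def grow {n : ℕ} (l : n.Partition) (N : ℕ) : (n + N + 1 + n).Partition :=
  ⟨(n + N + 1) ::ₘ l.parts, fun h => (Multiset.mem_cons.1 h).elim (fun e => by omega) l.parts_pos,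
    by rw [Multiset.sum_cons, l.parts_sum]⟩

theorem mu_grow {n N : ℕ} {l r : n.Partition} (h : Refines l.parts r.parts)
    {μ : n.Partition → n.Partition → ℤ} (hμ : IsMobius μ) {ν} (hν : IsMobius ν) :
    ν (grow l N) (grow r N) = μ l r := by
  classical
  have h1 : ∀ b, SubSum l.parts b → b ≤ n := by
    rintro _ ⟨A, hA, rfl⟩
    obtain ⟨B, hB⟩ := Multiset.le_iff_exists_add.1 hA
    rw [← l.parts_sum, hB, Multiset.sum_add]
    omega
  rw [marked_aux (ι := Unit) μ r hμ hν (grow r N) _ (grow l N) l.parts (fun _ => n + N + 1)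
    (fun _ => 0) rfl (add_comm {n + N + 1} l.parts) (add_comm {n + N + 1} r.parts)
    (fun _ a b _ hb => by have := h1 b hb; omega) (fun _ _ _ _ _ _ _ => rfl)
    ((refines_zeros (fun x hx => l.parts_pos hx) _).2 h), GG, sum_eq_single l]
  · have : words (ι := Unit) 0 (fun _ => 0) = 1 := by
      rw [words, Set.ncard_eq_one]
      refine ⟨fun _ => [], Set.ext fun w => ⟨fun hw => funext fun u => ?_, ?_⟩⟩
      · simpa using hw.1
      · rintro rfl
        simp
    simp [this]
  · intro y hy hne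
    obtain ⟨B, hB⟩ := Multiset.le_iff_exists_add.1 (mem_filter.1 hy).2.1
    have h2 := congrArg Multiset.sum hB
    rw [Multiset.sum_add, l.parts_sum, y.parts_sum] at h2
    refine (hne (Nat.Partition.ext ?_)).elim
    rw [hB, Multiset.eq_zero_of_forall_notMem (s := B) fun x hx => ?_, add_zero]
    have h3 := l.parts_pos (hB ▸ Multiset.mem_add.2 (Or.inr hx))
    have h4 := Multiset.single_le_sum (s := B) (fun _ _ => Nat.zero_le _) x hx
    omega
  · exact fun h2 => (h2 (mem_filter.2 ⟨mem_univ _, le_rfl, h⟩)).elim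

theorem no_form (e : Form) (N : ℕ) : ∃ n ≥ N, ∃ (l r : n.Partition)
    (μ : n.Partition → n.Partition → ℤ), Refines l.parts r.parts ∧ IsMobius μ ∧
      ¬ (μ l r = 0 ↔ e.val n l.parts r.parts [] = 0) := by
  by_contra h
  simp only [not_exists, not_and, not_not] at h
  refine not_zs e N fun n l r h1 μ h2 => ?_
  obtain ⟨ν, hν⟩ := exists_mobius (n + N + 1 + n)
  rw [← mu_grow h1 h2 hν]
  exact h _ (by omega) (grow l N) (grow r N) ν
    (refines_cons.2 ⟨{n + N + 1}, l.parts, rfl, by simp, h1⟩) hν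

end Pool.Agent.Work.MP_84e666_co.U
end
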